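import Pool.Agent.H78.PC.ActC

/-!
# Active cells of precisions and the contexts of the U-step

`nm_cell`: for the numbers of a level, there are arbitrarily small cells of precisions on which the
rate of the direction grows everywhere (`Pool.PC.qcell_all`). `ctt_lvl`, `tlb_lvl`, `ha2_lvl`: the
activity of the velocity in the contexts, in such a cell, at all integers, on all events.
-/

set_option autoImplicit false

namespace Pool.WF

open Finset Real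
open Pool.Agent.H49.Ent Pool.Agent.H32.Dense Pool.STK Pool.KA Pool.KSAT Pool.K2S Pool.OCG
  Pool.S6U Pool.UEG Pool.PC

variable {J : ℕ}

/-- **Active cells.** All small cell lengths `d₂`; the rate grows on all intervals of the cell of
length at least `κ d₂`. -/
theorem nm_cell {c : Nm} {δ x κ : ℝ} (hc : c.Ok δ) (hδ : 0 < δ) (hδ1 : δ ≤ 1) (hx : 0 < x)
    (hx1 : x ≤ 1 - c.q) (hκ : 0 < κ) :
    ∃ d₀ : ℝ, 0 < d₀ ∧ ∀ d₂ : ℚ, 0 < d₂ → (d₂ : ℝ) < d₀ → ∃ ya : ℚ, δ * x / 2 < ya ∧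
      (ya : ℝ) + d₂ < x ∧ ∀ y₁ y₂ : ℝ, (ya : ℝ) ≤ y₁ → y₁ + κ * d₂ ≤ y₂ → y₂ ≤ ya + d₂ →
        δ / 8 * (y₂ - y₁) ≤ c.act y₂ - c.act y₁ := by
  have hx2 : 0 < x - δ * x / 2 := by
    have : δ * x ≤ 1 * x := mul_le_mul_of_nonneg_right hδ1 hx.le
    linarith
  have h1 := hc.ad x hx.le hx1
  have h2 := hc.al 0 (δ * x / 2) (by positivity)
  rw [hc.a0] at h2
  have hlow : δ / 2 * (x - δ * x / 2) ≤ c.act (δ * x / 2 + (x - δ * x / 2)) -
      c.act (δ * x / 2) := by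
    have e : δ * x / 2 + (x - δ * x / 2) = x := by ring
    rw [e]
    have h3 : 0 ≤ δ * (δ * x) := by positivity
    have h4 : δ / 2 * (x - δ * x / 2) = δ * x / 2 - δ * (δ * x) / 4 := by ring
    rw [h4]
    linarith
  obtain ⟨d₀, hd₀, h⟩ := qcell_all hc.am (L := 1) zero_le_one
    (fun y₁ y₂ hy => by rw [one_mul]; exact hc.al y₁ y₂ hy) (by positivity : 0 < δ / 2) hx2 hlow
    (by positivity : 0 < δ * κ / 16)
  refine ⟨d₀, hd₀, fun d₂ hd hd' => ?_⟩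
  obtain ⟨ya, h3, h4, v, h5, -, h6⟩ := h d₂ hd hd'
  refine ⟨ya, h3, by linarith, ?_⟩
  intro y₁ y₂ g1 g2 g3
  have hd2 : (0 : ℝ) < d₂ := by exact_mod_cast hd
  have g4 : 0 ≤ κ * (d₂ : ℝ) := by positivity
  have key := qcell_act (del := δ / 2) (e := δ * κ / 16) (y := y₂ - y₁) h5 h6 g1 (by linarith)
    (by
      have : 8 * (δ * κ / 16) * (d₂ : ℝ) = δ / 2 * (κ * d₂) := by ring
      rw [this]
      exact mul_le_mul_of_nonneg_left (by linarith) (by positivity)) (by linarith)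
  have e : y₁ + (y₂ - y₁) = y₂ := by ring
  rw [e] at key
  have e2 : δ / 2 / 4 = δ / 8 := by ring
  rw [e2] at key
  exact key

/-- The constant for frames at distance `4 / 2 ^ l`. -/
noncomputable def c₄ : ℝ := cvis 2 1 4

/-- **The activity in the contexts** `ctt`, `tlb` **of a level**, in an active cell, at all
integers, on all events. -/
theorem ctt_lvl (c χ : ℝ) (hc : 0 < c) (hχ : 0 < χ) : ∃ n₀ : ℕ, 1 ≤ n₀ ∧ ∀ n : ℕ,
    n₀ ≤ n → ∃ (h₀ : ℝ) (J₀ : ℕ), 0 < h₀ ∧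
      ∀ (J : ℕ) (F : Fam 2 J) (cn : Nm) (h ya yb : ℝ) (B : ℕ → Bx F) (k : ℕ), J₀ ≤ J → h ≤ h₀ →
        0 ≤ ya → yb ≤ 1 → Lvl F cn n h B k → (B k).Ok (fun _ => True) → (B k).q + yb * J ≤ J →
        (∀ x y, ya ≤ x → x + χ / 2 ≤ y → y ≤ yb → c * (y - x) ≤ cn.act y - cn.act x) →
        ∀ (w q l X : ℕ) (z : F.Ω → Fin 2 → ℝ), χ * J ≤ X → (B k).q + ya * J ≤ q →
          ((q + X : ℕ) : ℝ) ≤ (B k).q + yb * J → w ≤ J → q + l ≤ (B k).n →
          (∀ ω i, ∃ a : ℤ, z ω i = a / 2 ^ l) →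
          (∀ ω, 0 < F.p ω → |(B k).a ω - z ω (oth (B k).i0)| ≤ 4 / 2 ^ l) →
          ∀ E : F.Ω → Prop, h ≤ Pe F.p E → 0 < Pe F.p E → c / 2 * X * Real.log 2 ≤
            CH (Pool.Agent.H49.Ent.cond F.p E True) (vc F (B k).i0 (q + X))
              (F.ctt w q l (B k).i0 z) := by
  obtain ⟨n₀, hn₀, hm⟩ := lvl_cell c χ c₄ hc hχ
  refine ⟨n₀, hn₀, fun n hn => ?_⟩
  obtain ⟨h₀, J₀, hh₀, hm⟩ := hm n hn
  refine ⟨h₀, J₀, hh₀, ?_⟩
  intro J F cn h ya yb B k hJ hh hya hyb hL hok hqJ hA w q l X z hX hq hqX hw hn' hgr hz E hE hE0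
  have hp : IsLaw (Pool.Agent.H49.Ent.cond F.p E True) := Uni.isLaw_cond' F.isLaw.nonneg E hE0
  have hJ0 : (0 : ℝ) ≤ J := Nat.cast_nonneg _
  have hqk : (B k).q ≤ q := by
    have : ((B k).q : ℝ) ≤ q := by
      have := mul_nonneg hya hJ0
      linarith
    exact_mod_cast this
  obtain ⟨a, rfl⟩ := Nat.exists_eq_add_of_le hqk
  push_cast at hq hqX
  have key := hm J F cn h ya yb B k hJ hh hya hyb hL hA a X hX (by linarith) (by
    push_cast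
    linarith) hqJ E hE
  have own := (own_ptk hok).ev F.isLaw.nonneg E
  have k2 := own.act (z := z) (w := w) (X := X) (D := 4) hp hw le_rfl (by norm_num) hn' hgr (by
    intro ω hω i hi
    unfold zB
    rw [if_neg hi, eq_oth hi]
    exact hz ω ((ev_pos F.isLaw.nonneg).1 hω).1)
  have e : cvis 2 1 4 = c₄ := rfl
  rw [e] at k2
  linarith

/-- The same given the exact point, the boxes and the digits of the velocity. -/
theorem pt_lvl (c χ C : ℝ) (hc : 0 < c) (hχ : 0 < χ) : ∃ n₀ : ℕ, 1 ≤ n₀ ∧ ∀ n : ℕ,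
    n₀ ≤ n → ∃ (h₀ : ℝ) (J₀ : ℕ), 0 < h₀ ∧
      ∀ (J : ℕ) (F : Fam 2 J) (cn : Nm) (h ya yb : ℝ) (B : ℕ → Bx F) (k : ℕ), J₀ ≤ J → h ≤ h₀ →
        0 ≤ ya → yb ≤ 1 → Lvl F cn n h B k → (B k).q + yb * J ≤ J →
        (∀ x y, ya ≤ x → x + χ / 2 ≤ y → y ≤ yb → c * (y - x) ≤ cn.act y - cn.act x) →
        ∀ q X : ℕ, χ * J ≤ X → (B k).q + ya * J ≤ q → ((q + X : ℕ) : ℝ) ≤ (B k).q + yb * J →
          ∀ E : F.Ω → Prop, h ≤ Pe F.p E → c / 2 * X * Real.log 2 + C ≤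
            CH (Pool.Agent.H49.Ent.cond F.p E True) (vc F (B k).i0 (q + X))
              (fun ω => (ptk B k ω, vc F (B k).i0 q ω)) := by
  obtain ⟨n₀, hn₀, hm⟩ := lvl_cell c χ C hc hχ
  refine ⟨n₀, hn₀, fun n hn => ?_⟩
  obtain ⟨h₀, J₀, hh₀, hm⟩ := hm n hn
  refine ⟨h₀, J₀, hh₀, ?_⟩
  intro J F cn h ya yb B k hJ hh hya hyb hL hqJ hA q X hX hq hqX E hE
  have hp : ∀ ω, 0 ≤ Pool.Agent.H49.Ent.cond F.p E True ω := cond_nonneg F.isLaw.nonneg _ _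
  have hJ0 : (0 : ℝ) ≤ J := Nat.cast_nonneg _
  have hqk : (B k).q ≤ q := by
    have : ((B k).q : ℝ) ≤ q := by
      have := mul_nonneg hya hJ0
      linarith
    exact_mod_cast this
  obtain ⟨a, rfl⟩ := Nat.exists_eq_add_of_le hqk
  push_cast at hq hqX
  have key := hm J F cn h ya yb B k hJ hh hya hyb hL hA a X hX (by linarith) (by
    push_cast
    linarith) hqJ E hE
  rw [← Hb_eq hp] at key
  unfold Hb at key
  rw [← Nat.add_assoc] at key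
  exact key

/-- The same for the contexts `tlb`. -/
theorem tlb_of_ctt {F : Fam 2 J} {p : F.Ω → ℝ} (hp : ∀ ω, 0 ≤ p ω) {i0 : Fin 2} {w q l X : ℕ}
    {z : F.Ω → Fin 2 → ℝ} (hz0 : ∀ ω, z ω i0 = 0) (hq : q + w ≤ J) {e : ℝ}
    (h : e ≤ CH p (vc F i0 (q + X)) (F.ctt w q l i0 z)) :
    e ≤ CH p (vc F i0 (q + X)) (tlb F w q l (min (q + w + l) J) i0 z) :=
  h.trans (CH_mono_cond hp fun _ _ _ _ c => tlb_ctt hz0 hq c)

/-- **The hypothesis** `Ha2` **of the U-step** in an active cell. -/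
theorem ha2_lvl (c χ κ₀ : ℝ) (hc : 0 < c) (hχ : 0 < χ) (hκ₀ : 0 < κ₀) : ∃ n₀ : ℕ, 1 ≤ n₀ ∧
    ∀ n : ℕ, n₀ ≤ n → ∃ (h₀ : ℝ) (J₀ : ℕ), 0 < h₀ ∧
      ∀ (J : ℕ) (F : Fam 2 J) (cn : Nm) (h ya yb ϖ : ℝ) (B : ℕ → Bx F) (k : ℕ), J₀ ≤ J →
        h ≤ h₀ → h ≤ ϖ → 0 < ϖ →
        0 ≤ ya → yb ≤ 1 → Lvl F cn n h B k → (B k).Ok (fun _ => True) → (B k).q + yb * J ≤ J →
        (∀ x y, ya ≤ x → x + κ₀ * χ / 2 ≤ y → y ≤ yb → c * (y - x) ≤ cn.act y - cn.act x) →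
        ∀ (σ : Fin 2 → Fin 2) (w q X : ℕ) (vp : ℕ → ℕ) (a : ℕ → F.Ω → ℝ),
          Function.Injective σ → σ 0 = (B k).i0 → χ * J ≤ X → (B k).q + ya * J ≤ q →
          ((q + X : ℕ) : ℝ) ≤ (B k).q + yb * J → q + X + vp w ≤ (B k).n →
          q + X + vp w + w ≤ J → (∀ ω, ∃ i : ℤ, a w ω = i / 2 ^ vp w) →
          (∀ ω, 0 < F.p ω → |(B k).a ω - a w ω| ≤ 4 / 2 ^ vp w) →
          Ha2 F F.p σ vp a X ϖ κ₀ (c / 2) w q := by
  obtain ⟨n₀, hn₀, hm⟩ := lvl_cell c (κ₀ * χ) c₄ hc (by positivity)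
  refine ⟨n₀, hn₀, fun n hn => ?_⟩
  obtain ⟨h₀, J₀, hh₀, hm⟩ := hm n hn
  refine ⟨h₀, J₀, hh₀, ?_⟩
  intro J F cn h ya yb ϖ B k hJ hh hhϖ hϖ hya hyb hL hok hqJ hA σ w q X vp a hσ hσ0 hX hq hqX
    hn' hw hgr hz r X' hX' hrX E hE
  have hp : IsLaw (Pool.Agent.H49.Ent.cond F.p E True) := ev_law F.isLaw hϖ hE
  have hJ0 : (0 : ℝ) ≤ J := Nat.cast_nonneg _
  have hqk : (B k).q ≤ q := by
    have : ((B k).q : ℝ) ≤ q := by
      have := mul_nonneg hya hJ0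
      linarith
    exact_mod_cast this
  obtain ⟨b, rfl⟩ := Nat.exists_eq_add_of_le hqk
  push_cast at hq hqX
  have hrXr : (r : ℝ) + X' ≤ X := by exact_mod_cast hrX
  have hr0 : (0 : ℝ) ≤ r := Nat.cast_nonneg _
  have key := hm J F cn h ya yb B k hJ hh hya hyb hL hA (b + r) X' (by
      have := mul_le_mul_of_nonneg_left hX hκ₀.le
      linarith) (by
      push_cast
      linarith) (by
      push_cast
      linarith) hqJ E (hhϖ.trans hE)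
  have own := (own_ptk hok).ev F.isLaw.nonneg E
  rw [← hσ0] at own key
  have hσ1 : σ 1 ≠ σ 0 := fun e => by have := hσ e; simp at this
  have hσ1' : σ 1 ≠ (B k).i0 := fun e => hσ1 (e.trans hσ0.symm)
  have k2 := own.act_blb (a := a w) (w := w) (q := (B k).q + b + r) (v := vp w) (X := X')
    (D := 4) hp hσ le_rfl (by norm_num) (by omega) (by omega) hgr (by
      intro ω hω
      unfold zB
      rw [if_neg hσ1']
      exact hz ω ((ev_pos F.isLaw.nonneg).1 hω).1)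
  have e : cvis 2 1 4 = c₄ := rfl
  rw [e] at k2
  rw [← Nat.add_assoc] at key
  linarith

end Pool.WF
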