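import Pool.Agent.H83.OCG.NC
import Pool.Agent.H10.S6U.Pt
import Pool.Agent.H68.KG.EarlyB

/-!
# Full rows of one coordinate in an arbitrary context (row W-E, Fam level)

`F` is a family, `p` a law on its samples, `G` any context which contains the window `w`, a
covector `n`, the cell of the coordinate `n · x` of the position at the beginning of the window with
`q + w` digits, and `q` digits of the velocity `n · d`. The time is known up to the digit `R`.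
-/

set_option autoImplicit false

namespace Pool.WF

open Finset Real
open Pool.Agent.H49.Ent Pool.Agent.H32.Dense Pool.STK Pool.KA Pool.KSAT Pool.K2S Pool.OCG
  Pool.S6U

variable {m J : ℕ}

/-- The cell of a coordinate of a vector. -/
noncomputable def lc (k : ℕ) (n x : Fin m → ℝ) : ℤ := ⌊(2 : ℝ) ^ k * ∑ j, n j * x j⌋

/-- The part of a window of the length `1 / 2 ^ w` before the time, known up to the digit `R`. -/
noncomputable def thR (F : Fam m J) (w R : ℕ) (ω : F.Ω) : ℝ :=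
  (F.T1 R ω : ℝ) / 2 ^ (R - w) - F.T1 w ω

/-- Two samples of the time in the same window `v`, given the line, are near. -/
noncomputable def dn (F : Fam m J) (p : F.Ω → ℝ) (k' v : ℕ) : ℝ :=
  Pool.KAF.Pr (dbl p (slam F v)) {x | |(F.T x.2 : ℝ) - F.T x.1| < (2 : ℝ) ^ (J - (v + k'))}

section time

variable {F : Fam m J} {w R : ℕ}

theorem T1_nest (hw : w ≤ R) (hR : R ≤ J) (ω : F.Ω) : F.T1 w ω = F.T1 R ω / 2 ^ (R - w) := by
  obtain ⟨K, rfl⟩ := Nat.exists_eq_add_of_le hw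
  rw [Pool.KSAT.T1_div F hR, Nat.add_sub_cancel_left]

theorem thR_mem (hw : w ≤ R) (hR : R ≤ J) (ω : F.Ω) : 0 ≤ thR F w R ω ∧ thR F w R ω < 1 := by
  have h1 := T1_nest hw hR ω
  have h2 := Nat.div_add_mod (F.T1 R ω) (2 ^ (R - w))
  have h3 := Nat.mod_lt (F.T1 R ω) (show 0 < 2 ^ (R - w) by positivity)
  rw [← h1] at h2
  have hE : (0 : ℝ) < 2 ^ (R - w) := by positivity
  have h4 : (F.T1 R ω : ℝ) = 2 ^ (R - w) * F.T1 w ω + ((F.T1 R ω % 2 ^ (R - w) : ℕ) : ℝ) := by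
    exact_mod_cast h2.symm
  have h5 : ((F.T1 R ω % 2 ^ (R - w) : ℕ) : ℝ) < 2 ^ (R - w) := by exact_mod_cast h3
  have h6 : thR F w R ω = ((F.T1 R ω % 2 ^ (R - w) : ℕ) : ℝ) / 2 ^ (R - w) := by
    unfold thR
    rw [h4]
    field_simp
    ring
  rw [h6]
  exact ⟨by positivity, by rw [div_lt_one hE]; exact h5⟩

/-- The first digits of the time in the window. -/
theorem tl_thR {i : ℕ} (hi : w + i ≤ R) (hR : R ≤ J) (ω : F.Ω) :
    ⌊(2 : ℝ) ^ i * thR F w R ω⌋ = (F.T1 (w + i) ω : ℤ) - 2 ^ i * F.T1 w ω := by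
  have h1 := T1_nest hi hR ω
  have e1 : (2 : ℝ) ^ i * thR F w R ω = ((F.T1 R ω : ℕ) : ℝ) / ((2 ^ (R - (w + i)) : ℕ) : ℝ) -
      ((2 ^ i * F.T1 w ω : ℤ) : ℝ) := by
    unfold thR
    have e2 : (2 : ℝ) ^ (R - w) = 2 ^ i * 2 ^ (R - (w + i)) := by
      rw [← pow_add]
      congr 1
      omega
    rw [e2]
    push_cast
    field_simp
  rw [e1, Int.floor_sub_intCast, Int.floor_div_natCast, Int.floor_natCast, h1]
  push_cast
  rfl

/-- The position at the later time. -/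
theorem x1_eq (hw : w ≤ R) (ω : F.Ω) (j : Fin m) :
    F.x1 R ω j = F.x1 w ω j + thR F w R ω / 2 ^ w * F.d ω j := by
  have e : (2 : ℝ) ^ R = 2 ^ (R - w) * 2 ^ w := by
    rw [← pow_add]
    congr 1
    omega
  unfold Fam.x1 thR
  rw [e]
  field_simp
  ring

end time

/-- Near samples. -/
theorem nr_le {F : Fam m J} {p : F.Ω → ℝ} (hp : IsLaw p) {w R i k' : ℕ} (hR : R ≤ J)
    (hi : w + i + k' ≤ R) {S : Type} (L : F.Ω → S) (hL : Det p (slam F w) L) :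
    nr p L (thR F w R) k' i ≤ 3 * dn F p k' (w + i) := by
  have h0 := hp.nonneg
  have hdet : Det p (slam F (w + i)) (kp L (thR F w R) i) := by
    intro ω ω' hω hω' h
    have a1 : F.l ω = F.l ω' := (Prod.ext_iff.mp h).1
    have a2 := Prod.ext_iff.mp (Prod.ext_iff.mp h).2
    have a3 : F.Z ω = F.Z ω' := a2.1
    have a4 : F.T1 (w + i) ω = F.T1 (w + i) ω' := a2.2
    have a5 : F.T1 w ω = F.T1 w ω' := by
      rw [T1_nest (show w ≤ w + i by omega) (by omega) ω,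
        T1_nest (show w ≤ w + i by omega) (by omega) ω', a4]
    refine Prod.ext (hL ω ω' hω hω' (Prod.ext a1 (Prod.ext a3 a5))) ?_
    show ⌊(2 : ℝ) ^ i * thR F w R ω⌋ = ⌊(2 : ℝ) ^ i * thR F w R ω'⌋
    rw [tl_thR (by omega) hR, tl_thR (by omega) hR, a4, a5]
  refine (near_coarse hp hdet (thR F w R) (by positivity)).trans ?_
  unfold dn
  refine mul_le_mul_of_nonneg_left ?_ (by norm_num)
  refine Pr_mono' (fun w => glue_nonneg h0 h0 w) fun x hx hd => ?_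
  have hs : slam F (w + i) x.1 = slam F (w + i) x.2 := ((glue_pos_iff h0 h0 x).1 hx).2.2
  have a4 : F.T1 (w + i) x.1 = F.T1 (w + i) x.2 := (Prod.ext_iff.mp (Prod.ext_iff.mp hs).2).2
  have a5 : F.T1 w x.1 = F.T1 w x.2 := by
    rw [T1_nest (show w ≤ w + i by omega) (by omega) x.1,
      T1_nest (show w ≤ w + i by omega) (by omega) x.2, a4]
  have hd' : |thR F w R x.2 - thR F w R x.1| < (2 : ℝ) ^ (-((i : ℤ) + k')) := hd
  show |(F.T x.2 : ℝ) - F.T x.1| < (2 : ℝ) ^ (J - (w + i + k'))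
  -- the known digits
  have hE : (0 : ℝ) < 2 ^ (R - w) := by positivity
  have e1 : thR F w R x.2 - thR F w R x.1 = ((F.T1 R x.2 : ℝ) - F.T1 R x.1) / 2 ^ (R - w) := by
    unfold thR
    rw [a5]
    field_simp
    ring
  have e2 : (2 : ℝ) ^ (-((i : ℤ) + k')) = 2 ^ (R - (w + i + k')) / 2 ^ (R - w) := by
    rw [eq_div_iff hE.ne']
    rw [show (2 : ℝ) ^ (R - w) = 2 ^ (((R - w : ℕ)) : ℤ) from (zpow_natCast _ _).symm,
      ← zpow_add₀ (by norm_num : (2 : ℝ) ≠ 0),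
      show (2 : ℝ) ^ (R - (w + i + k')) = 2 ^ (((R - (w + i + k') : ℕ)) : ℤ) from
        (zpow_natCast _ _).symm]
    congr 1
    omega
  rw [e1, e2, abs_div, abs_of_pos hE, div_lt_div_iff_of_pos_right hE] at hd'
  have h3 : |(F.T1 R x.2 : ℤ) - F.T1 R x.1| < 2 ^ (R - (w + i + k')) := by
    have : ((|(F.T1 R x.2 : ℤ) - F.T1 R x.1| : ℤ) : ℝ) < ((2 ^ (R - (w + i + k')) : ℤ) : ℝ) := by
      push_cast
      exact hd'
    exact_mod_cast this
  have h4 := Nat.div_add_mod (F.T x.1) (2 ^ (J - R))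
  have h5 := Nat.div_add_mod (F.T x.2) (2 ^ (J - R))
  have h6 := Nat.mod_lt (F.T x.1) (show 0 < 2 ^ (J - R) by positivity)
  have h7 := Nat.mod_lt (F.T x.2) (show 0 < 2 ^ (J - R) by positivity)
  have e4 : F.T x.1 / 2 ^ (J - R) = F.T1 R x.1 := rfl
  have e5 : F.T x.2 / 2 ^ (J - R) = F.T1 R x.2 := rfl
  rw [e4] at h4
  rw [e5] at h5
  have e6 : (2 : ℤ) ^ (J - (w + i + k')) = 2 ^ (J - R) * 2 ^ (R - (w + i + k')) := by
    rw [← pow_add]
    congr 1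
    omega
  have h8 : |(F.T x.2 : ℤ) - F.T x.1| < 2 ^ (J - (w + i + k')) := by
    rw [e6]
    zify at h4 h5 h6 h7
    have hP : (0 : ℤ) < 2 ^ (J - R) := by positivity
    generalize (2 : ℤ) ^ (J - R) = P at *
    generalize (2 : ℤ) ^ (R - (w + i + k')) = Q at *
    have h9 := Int.emod_nonneg (F.T x.1 : ℤ) hP.ne'
    have h10 := Int.emod_nonneg (F.T x.2 : ℤ) hP.ne'
    rw [abs_lt] at h3 ⊢
    constructor
    · have : P * (-Q + 1) ≤ P * ((F.T1 R x.2 : ℤ) - F.T1 R x.1) :=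
        mul_le_mul_of_nonneg_left (by omega) hP.le
      linarith only [h4, h5, h6, h10, this]
    · have : P * ((F.T1 R x.2 : ℤ) - F.T1 R x.1) ≤ P * (Q - 1) :=
        mul_le_mul_of_nonneg_left (by omega) hP.le
      linarith only [h4, h5, h7, h9, this]
  have h9 : ((|(F.T x.2 : ℤ) - F.T x.1| : ℤ) : ℝ) < ((2 ^ (J - (w + i + k')) : ℤ) : ℝ) := by
    exact_mod_cast h8
  push_cast at h9
  exact h9

section cells

variable {n x : Fin m → ℝ} {k X h : ℕ}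

theorem lc_div (hh : h ≤ X) : lc (k + X) n x / 2 ^ (X - h) = lc (k + h) n x := by
  have e1 : (2 : ℝ) ^ (k + h) * ∑ j, n j * x j =
      ((2 : ℝ) ^ (k + X) * ∑ j, n j * x j) / ((2 ^ (X - h) : ℕ) : ℝ) := by
    have e : (2 : ℝ) ^ (k + X) = 2 ^ (k + h) * 2 ^ (X - h) := by
      rw [← pow_add]
      congr 1
      omega
    rw [e]
    push_cast
    field_simp
  unfold lc
  rw [e1, Int.floor_div_natCast]
  push_cast
  rfl

theorem lc_mem : 0 ≤ lc (k + X) n x - 2 ^ X * lc k n x ∧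
    lc (k + X) n x - 2 ^ X * lc k n x < 2 ^ X := by
  have h1 := lc_div (n := n) (x := x) (k := k) (Nat.zero_le X)
  rw [Nat.sub_zero, Nat.add_zero] at h1
  have h2 := Int.emod_add_mul_ediv (lc (k + X) n x) (2 ^ X)
  have hP : (0 : ℤ) < 2 ^ X := by positivity
  have h3 := Int.emod_nonneg (lc (k + X) n x) hP.ne'
  have h4 := Int.emod_lt_of_pos (lc (k + X) n x) hP
  rw [h1] at h2
  constructor <;> linarith

/-- The rounded fraction. -/
noncomputable def fr (k X : ℕ) (n x : Fin m → ℝ) : ℝ :=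
  ((lc (k + X) n x - 2 ^ X * lc k n x : ℤ) : ℝ) / 2 ^ X

theorem fr_mem : 0 ≤ fr k X n x ∧ fr k X n x < 1 := by
  obtain ⟨h1, h2⟩ := lc_mem (n := n) (x := x) (k := k) (X := X)
  have hP : (0 : ℝ) < 2 ^ X := by positivity
  unfold fr
  refine ⟨div_nonneg (by exact_mod_cast h1) hP.le, ?_⟩
  rw [div_lt_one hP]
  exact_mod_cast h2

theorem fl_fr (hh : h ≤ X) : ⌊(2 : ℝ) ^ h * fr k X n x⌋ = lc (k + h) n x - 2 ^ h * lc k n x := by
  have e1 : (2 : ℝ) ^ h * fr k X n x =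
      ((lc (k + X) n x : ℤ) : ℝ) / ((2 ^ (X - h) : ℕ) : ℝ) - ((2 ^ h * lc k n x : ℤ) : ℝ) := by
    have e : (2 : ℝ) ^ X = 2 ^ h * 2 ^ (X - h) := by
      rw [← pow_add]
      congr 1
      omega
    unfold fr
    push_cast
    rw [e]
    field_simp
  rw [e1, Int.floor_sub_intCast, Int.floor_div_natCast, Int.floor_intCast, ← lc_div hh]
  push_cast
  rfl

/-- The rounded fraction is near the fraction. -/
theorem fr_near : |2 ^ X * fr k X n x - ((2 : ℝ) ^ (k + X) * (∑ j, n j * x j) -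
    2 ^ X * lc k n x)| ≤ 1 := by
  have hP : (0 : ℝ) < 2 ^ X := by positivity
  have h1 := Int.floor_le ((2 : ℝ) ^ (k + X) * ∑ j, n j * x j)
  have h2 := Int.lt_floor_add_one ((2 : ℝ) ^ (k + X) * ∑ j, n j * x j)
  have e1 : 2 ^ X * fr k X n x = (⌊(2 : ℝ) ^ (k + X) * ∑ j, n j * x j⌋ : ℝ) -
      2 ^ X * lc k n x := by
    unfold fr lc
    push_cast
    field_simp
  rw [e1, abs_le]
  constructor <;> linarith

end cells

/-- The row at the later time, in units of the last digit, up to the known part. -/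
theorem row_near {F : Fam m J} {w R : ℕ} (hw : w ≤ R) (hR : R ≤ J) (q X : ℕ) (n : Fin m → ℝ)
    (ω : F.Ω) :
    |2 ^ X * (fr (q + w) X n (F.x1 w ω) + thR F w R ω * fr q X n (F.d ω)) -
      ((2 : ℝ) ^ (q + w + X) * (∑ j, n j * F.x1 R ω j) -
        2 ^ X * (lc (q + w) n (F.x1 w ω) + thR F w R ω * lc q n (F.d ω)))| ≤ 2 := by
  obtain ⟨t1, t2⟩ := thR_mem (F := F) hw hR ω
  have h1 := fr_near (n := n) (x := F.x1 w ω) (k := q + w) (X := X)
  have h2 := fr_near (n := n) (x := F.d ω) (k := q) (X := X)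
  have e1 : (2 : ℝ) ^ (q + w + X) * (∑ j, n j * F.x1 R ω j) =
      2 ^ (q + w + X) * (∑ j, n j * F.x1 w ω j) +
        thR F w R ω * (2 ^ (q + X) * ∑ j, n j * F.d ω j) := by
    have e2 : ∑ j, n j * F.x1 R ω j = (∑ j, n j * F.x1 w ω j) +
        thR F w R ω / 2 ^ w * ∑ j, n j * F.d ω j := by
      rw [Finset.mul_sum, ← Finset.sum_add_distrib]
      refine Finset.sum_congr rfl fun j _ => ?_
      rw [x1_eq hw]
      ring
    have e3 : (2 : ℝ) ^ (q + w + X) = 2 ^ (q + X) * 2 ^ w := by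
      rw [← pow_add]
      congr 1
      omega
    rw [e2, e3]
    field_simp
  rw [e1]
  generalize fr (q + w) X n (F.x1 w ω) = a at *
  generalize fr q X n (F.d ω) = b at *
  generalize ((lc (q + w) n (F.x1 w ω) : ℤ) : ℝ) = c at *
  generalize ((lc q n (F.d ω) : ℤ) : ℝ) = d at *
  generalize (2 : ℝ) ^ (q + w + X) * (∑ j, n j * F.x1 w ω j) = u at *
  generalize (2 : ℝ) ^ (q + X) * ∑ j, n j * F.d ω j = v at *
  generalize thR F w R ω = t at *
  generalize (2 : ℝ) ^ X = P at *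
  have e4 : P * (a + t * b) - (u + t * v - P * (c + t * d)) =
      (P * a - (u - P * c)) + t * (P * b - (v - P * d)) := by ring
  rw [e4]
  refine (abs_add_le _ _).trans ?_
  rw [abs_mul, abs_of_nonneg t1]
  have h3 : t * |P * b - (v - P * d)| ≤ 1 * 1 := mul_le_mul t2.le h2 (abs_nonneg _) zero_le_one
  linarith only [h1, h3]

open Classical in
/-- The sum over the scales. -/
theorem sum_nr {F : Fam m J} {p : F.Ω → ℝ} (hp : IsLaw p) {w X R k' : ℕ} (hw : w + X ≤ R)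
    (hR : R ≤ J) {S : Type} (L : F.Ω → S) (hL : Det p (slam F w) L) {η δ : ℝ}
    (h : ∑ v ∈ (Ico w (w + X)).filter (fun v => v + k' ≤ R), dn F p k' v ≤ η * X)
    (hk : (k' : ℝ) ≤ δ * X) :
    ∑ i ∈ range X, nr p L (thR F w R) k' i ≤ (3 * η + δ) * X := by
  have k1 : ∀ i ∈ range X, nr p L (thR F w R) k' i ≤
      3 * (if w + i + k' ≤ R then dn F p k' (w + i) else 0) +
        (if X - k' ≤ i then (1 : ℝ) else 0) := by
    intro i hi
    rw [mem_range] at hi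
    by_cases c1 : w + i + k' ≤ R
    · rw [if_pos c1]
      have := nr_le hp hR c1 L hL
      have h2 : (0 : ℝ) ≤ if X - k' ≤ i then (1 : ℝ) else 0 := by split_ifs <;> norm_num
      linarith only [this, h2]
    · rw [if_neg c1, if_pos (by omega)]
      have := nr_le_one hp L (thR F w R) k' i
      linarith only [this]
  refine (Finset.sum_le_sum k1).trans ?_
  rw [Finset.sum_add_distrib, ← Finset.mul_sum]
  have k2 : ∑ i ∈ range X, (if w + i + k' ≤ R then dn F p k' (w + i) else 0) =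
      ∑ v ∈ (Ico w (w + X)).filter (fun v => v + k' ≤ R), dn F p k' v := by
    rw [Finset.sum_filter, Finset.sum_Ico_eq_sum_range, Nat.add_sub_cancel_left]
  have k3 : ∑ i ∈ range X, (if X - k' ≤ i then (1 : ℝ) else 0) ≤ k' := by
    rw [← Finset.sum_filter, Finset.sum_const, nsmul_eq_mul, mul_one]
    have k4 : ((range X).filter fun i => X - k' ≤ i) ⊆ Ico (X - k') X := by
      intro i hi
      rw [Finset.mem_filter, mem_range] at hi
      rw [Finset.mem_Ico]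
      exact ⟨hi.2, hi.1⟩
    have k5 := Finset.card_le_card k4
    rw [Nat.card_Ico] at k5
    exact_mod_cast k5.trans (by omega)
  rw [k2]
  linarith only [h, hk, k3]

/-- The same row at two times `R₁`, `R₂` beyond the digit `w + X`. -/
theorem row_shift {F : Fam m J} {p : F.Ω → ℝ} (hp : IsLaw p) {Γ : Type} {G : F.Ω → Γ}
    {n : F.Ω → Fin m → ℝ} {q w X R₁ R₂ R : ℕ} (h1 : w + X ≤ R₁) (h2 : w + X ≤ R₂) (h1R : R₁ ≤ R)
    (h2R : R₂ ≤ R) (hR : R ≤ J) {S : Type} (Z : F.Ω → S)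
    (hG : Det p G (fun ω => (n ω, lc q (n ω) (F.d ω)))) (hZ : Det p Z (fun ω => (G ω, F.T1 R ω))) :
    CH p (fun ω => lc (q + w + X) (n ω) (F.x1 R₁ ω))
      (fun ω => (lc (q + w + X) (n ω) (F.x1 R₂ ω), Z ω)) ≤ Real.log (2 * 3 + 1) := by
  refine CH_int hp _ _ ?_
  intro ω ω' hω hω' e
  have e1 := Prod.ext_iff.mp e
  have e2 := Prod.ext_iff.mp (hZ ω ω' hω hω' e1.2)
  have e3 := Prod.ext_iff.mp (hG ω ω' hω hω' e2.1)
  have f2 : n ω = n ω' := e3.1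
  have f4 : lc q (n ω) (F.d ω) = lc q (n ω') (F.d ω') := e3.2
  have f5 : F.T1 R ω = F.T1 R ω' := e2.2
  have t1 : F.T1 R₁ ω = F.T1 R₁ ω' := by rw [T1_nest h1R hR ω, T1_nest h1R hR ω', f5]
  have t2 : F.T1 R₂ ω = F.T1 R₂ ω' := by rw [T1_nest h2R hR ω, T1_nest h2R hR ω', f5]
  have r3 := Plk.abs_sub_lt_of_floor e1.1
  have r4 := Plk.abs_sub_lt_of_floor f4
  -- the difference of the times
  obtain ⟨s, hs⟩ : ∃ s : ℝ, s = 2 ^ (w + X) * ((F.T1 R₁ ω : ℝ) / 2 ^ R₁ - F.T1 R₂ ω / 2 ^ R₂) :=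
    ⟨_, rfl⟩
  have hs1 : |s| ≤ 1 := by
    have w1 := Lab.T1_le F h1 (h1R.trans hR) ω
    have w2 := Lab.T1_le F h2 (h2R.trans hR) ω
    have hP : (0 : ℝ) < 2 ^ (w + X) := by positivity
    have w3 : |(F.T1 R₁ ω : ℝ) / 2 ^ R₁ - F.T1 R₂ ω / 2 ^ R₂| ≤ 1 / 2 ^ (w + X) := by
      rw [abs_le]
      constructor <;> linarith only [w1, w2, w1.1, w1.2, w2.1, w2.2]
    rw [hs, abs_mul, abs_of_pos hP]
    calc (2 : ℝ) ^ (w + X) * |(F.T1 R₁ ω : ℝ) / 2 ^ R₁ - F.T1 R₂ ω / 2 ^ R₂| ≤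
        2 ^ (w + X) * (1 / 2 ^ (w + X)) := mul_le_mul_of_nonneg_left w3 hP.le
      _ = 1 := by field_simp
  have key : ∀ v : F.Ω, F.T1 R₁ v = F.T1 R₁ ω → F.T1 R₂ v = F.T1 R₂ ω →
      (2 : ℝ) ^ (q + w + X) * (∑ j, n v j * F.x1 R₁ v j) =
        2 ^ (q + w + X) * (∑ j, n v j * F.x1 R₂ v j) + s * (2 ^ q * ∑ j, n v j * F.d v j) := by
    intro v v1 v2
    have e4 : ∑ j, n v j * F.x1 R₁ v j = (∑ j, n v j * F.x1 R₂ v j) +
        ((F.T1 R₁ ω : ℝ) / 2 ^ R₁ - F.T1 R₂ ω / 2 ^ R₂) * ∑ j, n v j * F.d v j := by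
      rw [Finset.mul_sum, ← Finset.sum_add_distrib]
      refine Finset.sum_congr rfl fun j _ => ?_
      unfold Fam.x1
      rw [v1, v2]
      ring
    have e5 : (2 : ℝ) ^ (q + w + X) = 2 ^ q * 2 ^ (w + X) := by
      rw [← pow_add]
      congr 1
      omega
    rw [e4, hs, e5]
    ring
  have k1 := key ω rfl rfl
  have k2 := key ω' t1.symm t2.symm
  refine (Plk.floor_sub_lt (c := 2) ?_).trans (by norm_num)
  rw [k1, k2]
  have e6 : ∀ a a' b b' : ℝ, a + s * b - (a' + s * b') = (a - a') + s * (b - b') := by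
    intro a a' b b'
    ring
  rw [e6]
  refine (abs_add_le _ _).trans ?_
  rw [abs_mul]
  have h5 := mul_le_mul hs1 r4 (abs_nonneg _) zero_le_one
  linarith only [r3, h5]

/-- **(W-E)**, with the times of the coarse label. -/
theorem w_core (ε ca κ : ℝ) (hε : 0 < ε) (hca : 0 < ca) (hκ : 0 < κ) (hκ1 : κ ≤ 1)
    (h4κ : 4 * κ ≤ ε) : ∃ ϖ : ℝ, 0 < ϖ ∧ ∀ k' : ℕ, ∃ (ι : ℝ) (X₀ : ℕ), 0 < ι ∧
    ∀ (m J : ℕ) (F : Fam m J) (p : F.Ω → ℝ) (Γ : Type) (G : F.Ω → Γ) (n : F.Ω → Fin m → ℝ)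
      (w q X R : ℕ) (η : ℝ), IsLaw p → w + X ≤ R → R ≤ J → X₀ ≤ X →
      Det p G (fun ω => ((F.T1 w ω, n ω), (lc (q + w) (n ω) (F.x1 w ω), lc q (n ω) (F.d ω)))) →
      dp p (F.T1 R) (fun ω => (lc (q + w + X) (n ω) (F.x1 w ω), lc (q + X) (n ω) (F.d ω))) G ≤
        ι * X →
      dp p (fun ω => lc (q + w + X) (n ω) (F.x1 R ω)) (fun ω => lc (q + X) (n ω) (F.d ω))
        (fun ω => (G ω, F.T1 R ω)) ≤ ι * X →
      ∑ i ∈ range X, nr p (fun ω => ((lc (q + w + X) (n ω) (F.x1 w ω),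
        lc (q + X) (n ω) (F.d ω)), G ω)) (thR F w R) k' i ≤ η * X →
      (∀ E : F.Ω → Prop, ϖ ≤ Pe p E → ca * ⌊κ * X⌋₊ * Real.log 2 ≤
        CH (Pool.Agent.H49.Ent.cond p E True) (fun ω => lc (q + ⌊κ * X⌋₊) (n ω) (F.d ω)) G) →
      (1 - ε - η) * X * Real.log 2 ≤
        CH p (fun ω => lc (q + w + X) (n ω) (F.x1 R ω)) (fun ω => (G ω, F.T1 R ω)) := by
  have hl2 : 0 < Real.log 2 := Real.log_pos (by norm_num)
  obtain ⟨ϖ, hϖ, hB⟩ := Pool.KG.w_ctx κ ca (ε / 4) hκ hκ1 hca (by positivity)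
  refine ⟨ϖ, hϖ, fun k' => ?_⟩
  obtain ⟨ι, X₀, hι, hB⟩ := hB k'
  obtain ⟨c, hc⟩ : ∃ c, c = Real.log (2 * 6 + 1) := ⟨_, rfl⟩
  have hc0 : 0 ≤ c := by
    rw [hc]
    exact Real.log_nonneg (by norm_num)
  obtain ⟨X₁, hX₁⟩ := exists_nat_ge (c / (ι / 2))
  obtain ⟨X₃, hX₃⟩ := exists_nat_ge (c / (ε / 4 * Real.log 2))
  refine ⟨ι / 2, max (max X₀ X₁) X₃, by positivity, ?_⟩
  intro m J F p Γ G n w q X R η hp hwX hR hX hG h1 h2 h3 h4
  have h0 := hp.nonneg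
  have hXX0 : X₀ ≤ X := ((le_max_left _ _).trans (le_max_left _ _)).trans hX
  have hXX1 : (X₁ : ℝ) ≤ X := by
    exact_mod_cast ((le_max_right _ _).trans (le_max_left _ _)).trans hX
  have hXX3 : (X₃ : ℝ) ≤ X := by
    exact_mod_cast (le_max_right _ _).trans hX
  have g1 : c ≤ ι / 2 * X := by
    rw [div_le_iff₀ (by positivity)] at hX₁
    have := mul_le_mul_of_nonneg_right hXX1 (by positivity : 0 ≤ ι / 2)
    linarith only [hX₁, this]
  have hX0 : (0 : ℝ) ≤ X := Nat.cast_nonneg _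
  have g2 : (⌊κ * X⌋₊ : ℝ) ≤ ε / 4 * X := by
    refine (Nat.floor_le (by positivity)).trans ?_
    exact mul_le_mul_of_nonneg_right (by linarith only [h4κ]) hX0
  have g3 : c ≤ ε / 4 * X * Real.log 2 := by
    rw [div_le_iff₀ (by positivity)] at hX₃
    have := mul_le_mul_of_nonneg_right hXX3 (by positivity : 0 ≤ ε / 4 * Real.log 2)
    linarith only [hX₃, this]
  have hwR : w ≤ R := by omega
  -- the data
  obtain ⟨L, hL⟩ : ∃ L : F.Ω → ℤ × ℤ, L = fun ω =>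
    (lc (q + w + X) (n ω) (F.x1 w ω), lc (q + X) (n ω) (F.d ω)) := ⟨_, rfl⟩
  obtain ⟨y, hy⟩ : ∃ y : F.Ω → ℝ, y = fun ω => fr (q + w) X (n ω) (F.x1 w ω) := ⟨_, rfl⟩
  obtain ⟨om, hom⟩ : ∃ om : F.Ω → ℝ, om = fun ω => fr q X (n ω) (F.d ω) := ⟨_, rfl⟩
  obtain ⟨th, hth⟩ : ∃ th : F.Ω → ℝ, th = thR F w R := ⟨_, rfl⟩
  obtain ⟨N, hN⟩ : ∃ N : F.Ω → ℤ, N = fun ω => lc (q + w + X) (n ω) (F.x1 R ω) := ⟨_, rfl⟩
  obtain ⟨V, hV⟩ : ∃ V : F.Ω → ℤ, V = fun ω => lc (q + X) (n ω) (F.d ω) := ⟨_, rfl⟩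
  -- what the context knows
  have kG : ∀ ω ω', 0 < p ω → 0 < p ω' → G ω = G ω' → F.T1 w ω = F.T1 w ω' ∧ n ω = n ω' ∧
      lc (q + w) (n ω) (F.x1 w ω) = lc (q + w) (n ω') (F.x1 w ω') ∧
      lc q (n ω) (F.d ω) = lc q (n ω') (F.d ω') := by
    intro ω ω' hω hω' e
    have e1 := Prod.ext_iff.mp (hG ω ω' hω hω' e)
    have e2 := Prod.ext_iff.mp e1.1
    have e3 := Prod.ext_iff.mp e1.2
    exact ⟨e2.1, e2.2, e3.1, e3.2⟩
  have dy : Det p (fun ω => (G ω, L ω)) y := by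
    intro ω ω' hω hω' e
    have e1 := Prod.ext_iff.mp e
    obtain ⟨-, -, e2, -⟩ := kG ω ω' hω hω' e1.1
    have e3 := e1.2
    simp only [hL, Prod.mk.injEq] at e3
    simp only [hy, fr]
    rw [e3.1, e2]
  have dom : Det p (fun ω => (G ω, L ω)) om := by
    intro ω ω' hω hω' e
    have e1 := Prod.ext_iff.mp e
    obtain ⟨-, -, -, e2⟩ := kG ω ω' hω hω' e1.1
    have e3 := e1.2
    simp only [hL, Prod.mk.injEq] at e3
    simp only [hom, fr]
    rw [e3.2, e2]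
  have dth : Det p (fun ω => (G ω, F.T1 R ω)) th := by
    intro ω ω' hω hω' e
    have e1 := Prod.ext_iff.mp e
    obtain ⟨e2, -, -, -⟩ := kG ω ω' hω hω' e1.1
    have e3 : F.T1 R ω = F.T1 R ω' := e1.2
    simp only [hth, thR]
    rw [e2, e3]
  -- the rows
  have near : ∀ ω ω', 0 < p ω → 0 < p ω' → (N ω, (G ω, F.T1 R ω)) = (N ω', (G ω', F.T1 R ω')) →
      |((Uni.dg X (fun ω => y ω + th ω * om ω) ω - Uni.dg X (fun ω => y ω + th ω * om ω) ω' : ℤ) :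
        ℝ)| ≤ 6 := by
    intro ω ω' hω hω' e
    have e1 := Prod.ext_iff.mp e
    have e2 := Prod.ext_iff.mp e1.2
    obtain ⟨f1, f2, f3, f4⟩ := kG ω ω' hω hω' e2.1
    have f5 : th ω = th ω' := dth ω ω' hω hω' e1.2
    have f6 : lc (q + w + X) (n ω) (F.x1 R ω) = lc (q + w + X) (n ω') (F.x1 R ω') := by
      have := e1.1
      simp only [hN] at this
      exact this
    have r1 := row_near (F := F) hwR hR q X (n ω) ω
    have r2 := row_near (F := F) hwR hR q X (n ω') ω'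
    have r3 := Plk.abs_sub_lt_of_floor f6
    have r4 : |(2 : ℝ) ^ X * (y ω + th ω * om ω) - 2 ^ X * (y ω' + th ω' * om ω')| ≤ 5 := by
      have f5' : thR F w R ω = thR F w R ω' := by
        rw [hth] at f5
        exact f5
      rw [hy, hom, hth]
      show |(2 : ℝ) ^ X * (fr (q + w) X (n ω) (F.x1 w ω) + thR F w R ω * fr q X (n ω) (F.d ω)) -
        2 ^ X * (fr (q + w) X (n ω') (F.x1 w ω') + thR F w R ω' * fr q X (n ω') (F.d ω'))| ≤ 5
      rw [f3, f4, f5'] at r1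
      rw [f5']
      generalize (2 : ℝ) ^ X * (fr (q + w) X (n ω) (F.x1 w ω) +
        thR F w R ω' * fr q X (n ω) (F.d ω)) = a at *
      generalize (2 : ℝ) ^ X * (fr (q + w) X (n ω') (F.x1 w ω') +
        thR F w R ω' * fr q X (n ω') (F.d ω')) = a' at *
      generalize (2 : ℝ) ^ (q + w + X) * ∑ j, n ω j * F.x1 R ω j = u at *
      generalize (2 : ℝ) ^ (q + w + X) * ∑ j, n ω' j * F.x1 R ω' j = u' at *
      generalize (2 : ℝ) ^ X * ((lc (q + w) (n ω') (F.x1 w ω') : ℝ) +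
        thR F w R ω' * (lc q (n ω') (F.d ω') : ℝ)) = v at *
      rw [abs_le] at *
      constructor <;> linarith only [r3, r1, r2, r1.1, r1.2, r2.1, r2.2, r3.1, r3.2]
    refine (Plk.floor_sub_lt (c := 5) r4).trans (by norm_num)
  have cN : CH p (Uni.dg X (fun ω => y ω + th ω * om ω)) (fun ω => (N ω, (G ω, F.T1 R ω))) ≤ c := by
    rw [hc]
    exact CH_int hp _ _ near
  -- the conclusion
  have hom1 : ∀ ω, 0 ≤ om ω ∧ om ω < 1 := fun ω => by rw [hom]; exact fr_mem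
  have key := hB F.Ω Γ (ℤ × ℤ) ℕ p G L (F.T1 R) y om th (fun ω => y ω + th ω * om ω) X
    ⟨hp, dy, dom, dth, fun ω _ => by rw [hth]; exact thR_mem hwR hR ω, fun ω _ => rfl⟩ hXX0
    (by
      rw [MI_eq_dp h0, hL]
      have : ι / 2 * (X : ℝ) ≤ ι * X := by
        have : 0 ≤ ι * (X : ℝ) := by positivity
        linarith only [hc0, g1]
      exact h1.trans this)
    (by
      have k1 : dp p (Uni.dg X (fun ω => y ω + th ω * om ω)) (Uni.dg X om)
          (fun ω => (G ω, F.T1 R ω)) ≤ dp p N (Uni.dg X om) (fun ω => (G ω, F.T1 R ω)) + c :=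
        dp_le_add h0 cN
      have k2 : dp p N (Uni.dg X om) (fun ω => (G ω, F.T1 R ω)) ≤
          dp p N V (fun ω => (G ω, F.T1 R ω)) := by
        refine dp_mono h0 (fun _ _ _ _ h => (Prod.ext_iff.mp h).1) ?_
        intro ω ω' hω hω' e
        have e1 := Prod.ext_iff.mp e
        obtain ⟨-, -, -, f4⟩ := kG ω ω' hω hω' (Prod.ext_iff.mp e1.2).1
        have e2 : lc (q + X) (n ω) (F.d ω) = lc (q + X) (n ω') (F.d ω') := by
          have := e1.1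
          simp only [hV] at this
          exact this
        rw [hom]
        show ⌊(2 : ℝ) ^ X * fr q X (n ω) (F.d ω)⌋ = ⌊(2 : ℝ) ^ X * fr q X (n ω') (F.d ω')⌋
        rw [fl_fr le_rfl, fl_fr le_rfl, e2, f4]
      have k3 : dp p N V (fun ω => (G ω, F.T1 R ω)) ≤ ι / 2 * X := by
        rw [hN, hV]
        exact h2
      unfold dp at k1
      unfold dp at k2 k3
      have k4 : ι / 2 * (X : ℝ) + ι / 2 * X = ι * X := by ring
      linarith only [g1, k1, k2, k3]) η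
    (by
      rw [hth, hL]
      exact h3)
    (by
      intro E hE
      have hE0 : ∀ ω, 0 ≤ Pool.Agent.H49.Ent.cond p E True ω := fun ω => cond_nonneg h0 E True ω
      rw [Pool.KG.floor_ctx hE0 (fun ω _ => hom1 ω)]
      refine (h4 E hE).trans ?_
      refine CH_mono_left hE0 ?_
      intro ω ω' hω hω' e
      have e1 := Prod.ext_iff.mp e
      have w1 := (ev_pos h0).1 hω
      have w2 := (ev_pos h0).1 hω'
      obtain ⟨-, -, -, f4⟩ := kG ω ω' w1.1 w2.1 e1.2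
      have hh : ⌊κ * X⌋₊ ≤ X := by
        refine Nat.floor_le_of_le ?_
        exact mul_le_of_le_one_left hX0 hκ1
      have e2 : ⌊(2 : ℝ) ^ ⌊κ * X⌋₊ * om ω⌋ = ⌊(2 : ℝ) ^ ⌊κ * X⌋₊ * om ω'⌋ := e1.1
      rw [hom] at e2
      simp only at e2
      rw [fl_fr hh, fl_fr hh, f4] at e2
      exact sub_left_inj.1 e2)
  have fin : CH p (Uni.dg X (fun ω => y ω + th ω * om ω)) (fun ω => (G ω, F.T1 R ω)) ≤
      CH p N (fun ω => (G ω, F.T1 R ω)) + c := by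
    have := CH_le_add h0 (Uni.dg X (fun ω => y ω + th ω * om ω)) N (fun ω => (G ω, F.T1 R ω))
    linarith only [cN, this]
  rw [hN] at fin
  have e5 : (1 - ε / 4 - η) * (X : ℝ) * Real.log 2 - ε / 4 * X * Real.log 2 =
      (1 - ε - η) * X * Real.log 2 + ε / 4 * X * Real.log 2 + ε / 4 * X * Real.log 2 := by ring
  have e6 : (⌊κ * X⌋₊ : ℝ) * Real.log 2 ≤ ε / 4 * X * Real.log 2 :=
    mul_le_mul_of_nonneg_right g2 hl2.le
  have e7 : 0 ≤ ε / 4 * (X : ℝ) * Real.log 2 := by positivity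
  linarith only [hc0, g3, key, fin, e6]

/-- The line data are a function of the line and the window. -/
theorem det_line {F : Fam m J} {p : F.Ω → ℝ} {Γ : Type} {G : F.Ω → Γ} {n : F.Ω → Fin m → ℝ}
    {w k k' : ℕ} (hn : Det p G n) (hs : Det p (slam F w) G) :
    Det p (slam F w) (fun ω => ((lc k (n ω) (F.x1 w ω), lc k' (n ω) (F.d ω)), G ω)) := by
  intro ω ω' hω hω' e
  have eG := hs ω ω' hω hω' e
  have e2 := hn ω ω' hω hω' eG
  have a1 : F.l ω = F.l ω' := (Prod.ext_iff.mp e).1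
  have a2 := Prod.ext_iff.mp a1
  have a5 : F.T1 w ω = F.T1 w ω' := (Prod.ext_iff.mp (Prod.ext_iff.mp e).2).2
  have u1 : F.u ω = F.u ω' := a2.1
  have u2 : F.d ω = F.d ω' := a2.2
  have u3 : F.x1 w ω = F.x1 w ω' := by
    funext j
    unfold Fam.x1
    rw [u1, u2, a5]
  refine Prod.ext ?_ eG
  show (lc k (n ω) (F.x1 w ω), lc k' (n ω) (F.d ω)) = (lc k (n ω') (F.x1 w ω'), lc k' (n ω') (F.d ω'))
  rw [e2, u2, u3]

/-- **(W-E)** Full rows of the coordinate `n · x` in the context `G`, the time known up to the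
digit `R`; the numbers `dn` of the near samples in the windows `v ∈ [w, w + X)` of one line. -/
theorem w_fam (ε ca κ : ℝ) (hε : 0 < ε) (hca : 0 < ca) (hκ : 0 < κ) (hκ1 : κ ≤ 1)
    (h8κ : 8 * κ ≤ ε) : ∃ ϖ : ℝ, 0 < ϖ ∧ ∀ k' : ℕ, ∃ (ι : ℝ) (X₀ : ℕ), 0 < ι ∧
    ∀ (m J : ℕ) (F : Fam m J) (p : F.Ω → ℝ) (Γ : Type) (G : F.Ω → Γ) (n : F.Ω → Fin m → ℝ)
      (w q X R : ℕ) (η : ℝ), IsLaw p → w + X ≤ R → R ≤ J → X₀ ≤ X →
      Det p G (fun ω => ((F.T1 w ω, n ω), (lc (q + w) (n ω) (F.x1 w ω), lc q (n ω) (F.d ω)))) →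
      Det p (slam F w) G →
      dp p (F.T1 R) (fun ω => (lc (q + w + X) (n ω) (F.x1 w ω), lc (q + X) (n ω) (F.d ω))) G ≤
        ι * X →
      dp p (fun ω => lc (q + w + X) (n ω) (F.x1 R ω)) (fun ω => lc (q + X) (n ω) (F.d ω))
        (fun ω => (G ω, F.T1 R ω)) ≤ ι * X →
      ∑ v ∈ (Ico w (w + X)).filter (fun v => v + k' ≤ R), dn F p k' v ≤ η * X →
      (∀ E : F.Ω → Prop, ϖ ≤ Pe p E → ca * ⌊κ * X⌋₊ * Real.log 2 ≤
        CH (Pool.Agent.H49.Ent.cond p E True) (fun ω => lc (q + ⌊κ * X⌋₊) (n ω) (F.d ω)) G) →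
      (1 - ε - 3 * η) * X * Real.log 2 ≤
        CH p (fun ω => lc (q + w + X) (n ω) (F.x1 R ω)) (fun ω => (G ω, F.T1 R ω)) := by
  obtain ⟨ϖ, hϖ, hB⟩ := w_core (ε / 2) ca κ (by positivity) hca hκ hκ1 (by linarith only [h8κ])
  refine ⟨ϖ, hϖ, fun k' => ?_⟩
  obtain ⟨ι, X₀, hι, hB⟩ := hB k'
  obtain ⟨X₁, hX₁⟩ := exists_nat_ge ((k' : ℝ) / (ε / 2))
  refine ⟨ι, max X₀ X₁, hι, ?_⟩
  intro m J F p Γ G n w q X R η hp hwX hR hX hG hs h1 h2 h3 h4
  have hXX1 : (X₁ : ℝ) ≤ X := by exact_mod_cast (le_max_right _ _).trans hX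
  have g2 : (k' : ℝ) ≤ ε / 2 * X := by
    rw [div_le_iff₀ (by positivity)] at hX₁
    have := mul_le_mul_of_nonneg_right hXX1 (by positivity : 0 ≤ ε / 2)
    linarith only [hX₁, this]
  have hn : Det p G n := fun ω ω' a b e => (Prod.ext_iff.mp (Prod.ext_iff.mp (hG ω ω' a b e)).1).2
  have key := hB m J F p Γ G n w q X R (3 * η + ε / 2) hp hwX hR ((le_max_left _ _).trans hX) hG
    h1 h2 (sum_nr hp hwX hR _ (det_line hn hs) h3 g2) h4
  have e : (1 - ε / 2 - (3 * η + ε / 2)) * (X : ℝ) * Real.log 2 =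
      (1 - ε - 3 * η) * X * Real.log 2 := by ring
  linarith only [key]

/-- **(W-E)**, with the numbers `nr` of the line. -/
theorem w_nr (ε ca κ : ℝ) (hε : 0 < ε) (hca : 0 < ca) (hκ : 0 < κ) (hκ1 : κ ≤ 1)
    (h4κ : 4 * κ ≤ ε) : ∃ ϖ : ℝ, 0 < ϖ ∧ ∀ k' : ℕ, ∃ (ι : ℝ) (X₀ : ℕ), 0 < ι ∧
    ∀ (m J : ℕ) (F : Fam m J) (p : F.Ω → ℝ) (Γ : Type) (G : F.Ω → Γ) (n : F.Ω → Fin m → ℝ)
      (w q X R : ℕ) (η : ℝ), IsLaw p → w + X ≤ R → R ≤ J → X₀ ≤ X →
      Det p G (fun ω => ((F.T1 w ω, n ω), (lc (q + w) (n ω) (F.x1 w ω), lc q (n ω) (F.d ω)))) →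
      Det p (slam F w) G →
      dp p (F.T1 R) (fun ω => (lc (q + w + X) (n ω) (F.x1 w ω), lc (q + X) (n ω) (F.d ω))) G ≤
        ι * X →
      dp p (fun ω => lc (q + w + X) (n ω) (F.x1 R ω)) (fun ω => lc (q + X) (n ω) (F.d ω))
        (fun ω => (G ω, F.T1 R ω)) ≤ ι * X →
      ∑ i ∈ range X, nr p (slam F w) (thR F w R) k' i ≤ η * X →
      (∀ E : F.Ω → Prop, ϖ ≤ Pe p E → ca * ⌊κ * X⌋₊ * Real.log 2 ≤
        CH (Pool.Agent.H49.Ent.cond p E True) (fun ω => lc (q + ⌊κ * X⌋₊) (n ω) (F.d ω)) G) →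
      (1 - ε - 3 * η) * X * Real.log 2 ≤
        CH p (fun ω => lc (q + w + X) (n ω) (F.x1 R ω)) (fun ω => (G ω, F.T1 R ω)) := by
  obtain ⟨ϖ, hϖ, hB⟩ := w_core ε ca κ hε hca hκ hκ1 h4κ
  refine ⟨ϖ, hϖ, fun k' => ?_⟩
  obtain ⟨ι, X₀, hι, hB⟩ := hB k'
  refine ⟨ι, X₀, hι, ?_⟩
  intro m J F p Γ G n w q X R η hp hwX hR hX hG hs h1 h2 h3 h4
  have hn : Det p G n := fun ω ω' a b e => (Prod.ext_iff.mp (Prod.ext_iff.mp (hG ω ω' a b e)).1).2
  refine hB m J F p Γ G n w q X R (3 * η) hp hwX hR hX hG h1 h2 ?_ h4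
  have k1 : ∀ i ∈ range X, nr p (fun ω => ((lc (q + w + X) (n ω) (F.x1 w ω),
      lc (q + X) (n ω) (F.d ω)), G ω)) (thR F w R) k' i ≤
      3 * nr p (slam F w) (thR F w R) k' i := fun i _ => nr_coarse hp (det_line hn hs) _ _ _
  refine (Finset.sum_le_sum k1).trans ?_
  rw [← Finset.mul_sum]
  linarith only [h3]

/-- The exact time. -/
theorem thR_J (F : Fam m J) (w : ℕ) : thR F w J = F.wt w := by
  funext ω
  have h1 := Nat.div_add_mod (F.T ω) (2 ^ (J - w))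
  have e1 : F.T1 J ω = F.T ω := T1_top ω
  have e2 : F.T ω / 2 ^ (J - w) = F.T1 w ω := rfl
  have hE : (0 : ℝ) < 2 ^ (J - w) := by positivity
  have h4 : (F.T ω : ℝ) = 2 ^ (J - w) * F.T1 w ω + ((F.T ω % 2 ^ (J - w) : ℕ) : ℝ) := by
    rw [e2] at h1
    exact_mod_cast h1.symm
  unfold thR Fam.wt
  rw [e1, h4]
  have h5 : (2 ^ (J - w) * (F.T1 w ω : ℝ) + ((F.T ω % 2 ^ (J - w) : ℕ) : ℝ)) / 2 ^ (J - w) -
      F.T1 w ω = ((F.T ω % 2 ^ (J - w) : ℕ) : ℝ) / 2 ^ (J - w) := by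
    field_simp
    ring
  exact h5

end Pool.WF
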