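import Pool.Agent.H78.PC.Wf
import Pool.Agent.H83.UEG.Ue
import Pool.Agent.H50.K2.Piece

/-!
# Full rows of the first coordinate in the U-step

The hypothesis `wf` of the U-step (`Pool.S6U.Bq`) from the dependences of the context, the time and
the activity of the velocity of the first coordinate (`Pool.WF.w_nr`).
-/

set_option autoImplicit false

namespace Pool.WF

open Finset Real
open Pool.Agent.H49.Ent Pool.Agent.H32.Dense Pool.STK Pool.KA Pool.KSAT Pool.K2S Pool.OCG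
  Pool.S6U Pool.UEG

variable {m J : ℕ}

/-- Beyond the resolution of the time all samples of one window are near. -/
theorem nr_top {F : Fam m J} {p : F.Ω → ℝ} (hp : IsLaw p) {w i : ℕ} (hi : J - w ≤ i) (k' : ℕ) :
    1 ≤ nr p (slam F w) (F.wt w) k' i := by
  classical
  have h0 := hp.nonneg
  have hu : Pool.KAF.Pr (dbl p (kp (slam F w) (F.wt w) i)) Set.univ = 1 := by
    rw [Pool.KAF.Pr_eq]
    refine Eq.trans ?_ (Pool.OC.isLaw_dbl hp (kp (slam F w) (F.wt w) i)).sum_one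
    exact Finset.sum_congr rfl fun x _ => if_pos (Set.mem_univ x)
  rw [← hu]
  unfold nr
  refine Pr_mono' (fun w => glue_nonneg h0 h0 w) fun x hx _ => ?_
  have hs : kp (slam F w) (F.wt w) i x.1 = kp (slam F w) (F.wt w) i x.2 :=
    ((glue_pos_iff h0 h0 x).1 hx).2.2
  have e : ⌊(2 : ℝ) ^ i * F.wt w x.1⌋ = ⌊(2 : ℝ) ^ i * F.wt w x.2⌋ := (Prod.ext_iff.mp hs).2
  have key : ∀ ω : F.Ω, (2 : ℝ) ^ i * F.wt w ω =
      ((2 ^ (i - (J - w)) * (F.T ω % 2 ^ (J - w)) : ℕ) : ℝ) := by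
    intro ω
    have e1 : (2 : ℝ) ^ i = 2 ^ (i - (J - w)) * 2 ^ (J - w) := by
      rw [← pow_add]
      congr 1
      omega
    unfold Fam.wt
    rw [e1]
    push_cast
    field_simp
  rw [key, key, Int.floor_natCast, Int.floor_natCast] at e
  have e2 : (2 : ℝ) ^ i * F.wt w x.1 = 2 ^ i * F.wt w x.2 := by
    rw [key, key]
    exact_mod_cast e
  have e3 : F.wt w x.1 = F.wt w x.2 := mul_left_cancel₀ (by positivity) e2
  show |F.wt w x.2 - F.wt w x.1| < (2 : ℝ) ^ (-((i : ℤ) + k'))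
  rw [e3, sub_self, abs_zero]
  positivity

/-- The block inside the resolution. -/
theorem block_le {F : Fam m J} {p : F.Ω → ℝ} (hp : IsLaw p) {w X X' k' : ℕ} (hX' : X' ≤ X)
    {e : ℝ} (h : ∑ i ∈ range X, nr p (slam F w) (F.wt w) k' i ≤ e) :
    (X' : ℝ) - e ≤ (min X' (J - w) : ℕ) := by
  have h0 := hp.nonneg
  have he : 0 ≤ e := le_trans (Finset.sum_nonneg fun i _ => nr_nonneg h0 _ _ k' i) h
  rcases le_total X' (J - w) with h1 | h1
  · rw [min_eq_left h1]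
    linarith only [he]
  · rw [min_eq_right h1]
    have h2 : ((X : ℝ) - (J - w : ℕ)) ≤ ∑ i ∈ range X, nr p (slam F w) (F.wt w) k' i := by
      have h3 : ∑ i ∈ Ico (J - w) X, (1 : ℝ) ≤ ∑ i ∈ Ico (J - w) X,
          nr p (slam F w) (F.wt w) k' i :=
        Finset.sum_le_sum fun i hi => nr_top hp (Finset.mem_Ico.1 hi).1 k'
      have h4 : ∑ i ∈ Ico (J - w) X, nr p (slam F w) (F.wt w) k' i ≤
          ∑ i ∈ range X, nr p (slam F w) (F.wt w) k' i := by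
        refine Finset.sum_le_sum_of_subset_of_nonneg ?_ fun i _ _ => nr_nonneg h0 _ _ k' i
        intro i hi
        rw [Finset.mem_Ico] at hi
        rw [Finset.mem_range]
        exact hi.2
      rw [Finset.sum_const, Nat.card_Ico, nsmul_eq_mul, mul_one, Nat.cast_sub (h1.trans hX')] at h3
      linarith only [h3, h4]
    have h5 : (X' : ℝ) ≤ X := by exact_mod_cast hX'
    linarith only [h, h2, h5]

section ent

variable {Ω S T U β : Type} [Fintype Ω] {p : Ω → ℝ}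

/-- The dependence without a part of the condition. -/
theorem dp_drop (hp : ∀ ω, 0 ≤ p ω) (N : Ω → S) (V : Ω → T) (G : Ω → U) (Z : Ω → β) :
    dp p N V Z ≤ dp p V N (fun ω => (G ω, Z ω)) + dp p G V Z := by
  rw [dp_symm hp N V Z, dp_symm hp G V Z]
  have h1 : CH p V (fun ω => (N ω, (G ω, Z ω))) ≤ CH p V (fun ω => (N ω, Z ω)) :=
    CH_mono_cond hp fun ω ω' _ _ e => by
      have e1 := Prod.ext_iff.mp e
      exact Prod.ext e1.1 (Prod.ext_iff.mp e1.2).2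
  unfold dp
  linarith only [h1]

end ent

section one

variable {F : Fam m J} {w : ℕ} {c : Fin m → ℕ} {M : F.Ω → Fin m → Fin m → ℝ} {i₀ : Fin m}
  {q : F.Ω → ℝ}

/-- The position at the time of the sample in the cell, given the context and the time. -/
theorem pos_sub (hw : w ≤ J) {Y : ℕ} {ω ω' : F.Ω} (hb : F.blb w c M ω = F.blb w c M ω')
    (hT : F.T ω = F.T ω') :
    (2 : ℝ) ^ (c i₀ + w + Y) * (∑ j, M ω i₀ j * F.x1 J ω j) -
      2 ^ (c i₀ + w + Y) * (∑ j, M ω' i₀ j * F.x1 J ω' j) =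
      2 ^ Y * F.mx w c M ω i₀ - 2 ^ Y * F.mx w c M ω' i₀ := by
  have h1 := Box.pos_eq F hw c M ω i₀
  have h2 := Box.pos_eq F hw c M ω' i₀
  have h3 := Box.mkn_det hb hT
  have h4 : F.mkn w c M ω i₀ = F.mkn w c M ω' i₀ := congrFun h3 i₀
  unfold mco at h1 h2
  rw [Lab.x1_J, Lab.x1_J, pow_add _ (c i₀ + w) Y]
  have e : ∀ a b : ℝ, (2 : ℝ) ^ (c i₀ + w) * 2 ^ Y * a - 2 ^ (c i₀ + w) * 2 ^ Y * b =
      2 ^ Y * (2 ^ (c i₀ + w) * a) - 2 ^ Y * (2 ^ (c i₀ + w) * b) := by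
    intro a b
    ring
  rw [e, h1, h2, h4]
  ring

theorem CH_lc_mx {Z : Type} (hq : IsLaw q) (hw : w ≤ J) (Y : ℕ) (z : F.Ω → Z)
    (hz : Det q z (fun ω => (F.blb w c M ω, F.T ω))) :
    CH q (fun ω => lc (c i₀ + w + Y) (M ω i₀) (F.x1 J ω))
      (fun ω => (Uni.dg Y (fun ω => F.mx w c M ω i₀) ω, z ω)) ≤ Real.log (2 * 2 + 1) := by
  refine CH_int hq _ _ ?_
  intro ω ω' hω hω' e
  have e1 := Prod.ext_iff.mp e
  have e2 := Prod.ext_iff.mp (hz ω ω' hω hω' e1.2)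
  have e3 : ⌊(2 : ℝ) ^ Y * F.mx w c M ω i₀⌋ = ⌊(2 : ℝ) ^ Y * F.mx w c M ω' i₀⌋ := e1.1
  refine (Plk.floor_sub_lt (c := 1) ?_).trans (by norm_num)
  rw [pos_sub hw e2.1 e2.2]
  exact Plk.abs_sub_lt_of_floor e3

theorem CH_mx_lc {Z : Type} (hq : IsLaw q) (hw : w ≤ J) (Y : ℕ) (z : F.Ω → Z)
    (hz : Det q z (fun ω => (F.blb w c M ω, F.T ω))) :
    CH q (Uni.dg Y (fun ω => F.mx w c M ω i₀))
      (fun ω => (lc (c i₀ + w + Y) (M ω i₀) (F.x1 J ω), z ω)) ≤ Real.log (2 * 2 + 1) := by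
  refine CH_int hq _ _ ?_
  intro ω ω' hω hω' e
  have e1 := Prod.ext_iff.mp e
  have e2 := Prod.ext_iff.mp (hz ω ω' hω hω' e1.2)
  have e3 : lc (c i₀ + w + Y) (M ω i₀) (F.x1 J ω) = lc (c i₀ + w + Y) (M ω' i₀) (F.x1 J ω') :=
    e1.1
  have e4 := Plk.abs_sub_lt_of_floor e3
  rw [pos_sub hw e2.1 e2.2] at e4
  refine (Plk.floor_sub_lt (c := 1) ?_).trans (by norm_num)
  exact e4

/-- The line data of the covector from the label. -/
theorem lc_lbr {X Y : ℕ} (hY : Y ≤ X) {ω ω' : F.Ω}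
    (h : F.lbr w c M X ω = F.lbr w c M X ω') :
    lc (c i₀ + w + Y) (M ω i₀) (F.x1 w ω) = lc (c i₀ + w + Y) (M ω' i₀) (F.x1 w ω') ∧
      lc (c i₀ + Y) (M ω i₀) (F.d ω) = lc (c i₀ + Y) (M ω' i₀) (F.d ω') := by
  have h1 := lbr_mono hY h
  obtain ⟨-, -, h3, h4, -⟩ := Box.mlb_ext h1
  constructor
  · have e := congrFun h3 i₀
    have e2 : c i₀ + w + Y = c i₀ + Y + w := by ring
    rw [e2]
    exact e
  · exact congrFun h4 i₀

/-- The digits of the velocity. -/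
theorem lc_md (Y : ℕ) {ω ω' : F.Ω} (h : F.blb w c M ω = F.blb w c M ω') :
    lc (c i₀ + Y) (M ω i₀) (F.d ω) = lc (c i₀ + Y) (M ω' i₀) (F.d ω') ↔
      Uni.dg Y (fun ω => F.md c M ω i₀) ω = Uni.dg Y (fun ω => F.md c M ω i₀) ω' := by
  obtain ⟨-, -, -, h4, -⟩ := Box.mlb_ext h
  have e4 : F.mvl c M ω i₀ = F.mvl c M ω' i₀ := congrFun h4 i₀
  have k1 : ∀ ω : F.Ω, Uni.dg Y (fun ω => F.md c M ω i₀) ω =
      lc (c i₀ + Y) (M ω i₀) (F.d ω) - 2 ^ Y * F.mvl c M ω i₀ := fun ω =>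
    Box.fl_md F c M Y ω i₀
  rw [k1, k1, e4]
  exact sub_left_inj.symm

/-- The hypotheses of `w_nr` in the context. -/
theorem ctx_det (hM : Det q (slam F w) M) :
    Det q (F.blb w c M) (fun ω => ((F.T1 w ω, M ω i₀), (lc (c i₀ + w) (M ω i₀) (F.x1 w ω),
      lc (c i₀) (M ω i₀) (F.d ω)))) ∧ Det q (slam F w) (F.blb w c M) := by
  constructor
  · intro ω ω' _ _ e
    obtain ⟨h1, h2, h3, h4, -⟩ := Box.mlb_ext e
    refine Prod.ext (Prod.ext h1 (congrFun h2 i₀)) (Prod.ext ?_ ?_)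
    · exact congrFun h3 i₀
    · exact congrFun h4 i₀
  · exact lbr_slam (c := c) hM 0

end one

/-- **Full rows of the first coordinate in one context**, under the law of an event. -/
theorem wf_one (δ₃ ca : ℝ) (hδ₃ : 0 < δ₃) (hca : 0 < ca) : ∃ (κ ϖ eN : ℝ), 0 < κ ∧ κ ≤ 1 ∧
    0 < ϖ ∧ 0 < eN ∧ ∀ k' : ℕ, ∃ (δ : ℝ) (X₀ : ℕ), 0 < δ ∧
    ∀ {m J : ℕ} (F : Fam m J) {Γ : Type} (G : F.Ω → Γ) (q : F.Ω → ℝ) (i₀ : Fin m) (w : ℕ)
      (c : Fin m → ℕ) (M : F.Ω → Fin m → Fin m → ℝ) (X X' : ℕ), IsLaw q → w ≤ J → X₀ ≤ X →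
      X' ≤ X → Det q (slam F w) M →
      tT F q w c M X ≤ δ * X → tB F q i₀ w c M G X ≤ δ * X → tM F q w c M G X ≤ δ * X →
      ∑ i ∈ range X, nr q (slam F w) (F.wt w) k' i ≤ eN * X →
      (∀ E : F.Ω → Prop, ϖ ≤ Pe q E → ∀ h : ℕ, κ * X ≤ h → h ≤ X' → ca * h * Real.log 2 ≤
        CH (Pool.Agent.H49.Ent.cond q E True) (Uni.dg h (fun ω => F.md c M ω i₀))
          (F.blb w c M)) →
      X' * Real.log 2 - δ₃ * X ≤ CH q (Uni.dg X' (fun ω => F.mx w c M ω i₀))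
        (fun ω => (F.blb w c M ω, F.T ω)) := by
  obtain ⟨u, hu⟩ : ∃ u, u = Real.log 2 := ⟨_, rfl⟩
  have hu0 : 0 < u := by rw [hu]; exact Real.log_pos (by norm_num)
  obtain ⟨ε, hε⟩ : ∃ ε, ε = δ₃ / (4 * u) := ⟨_, rfl⟩
  have hε0 : 0 < ε := by rw [hε]; positivity
  have hεu : ε * u = δ₃ / 4 := by rw [hε]; field_simp
  obtain ⟨κ₀, hκ₀⟩ : ∃ κ₀, κ₀ = min 1 (ε / 4) := ⟨_, rfl⟩
  have hκ₀0 : 0 < κ₀ := by rw [hκ₀]; exact lt_min one_pos (by positivity)
  have hκ₀1 : κ₀ ≤ 1 := by rw [hκ₀]; exact min_le_left _ _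
  have hκ₀ε : 4 * κ₀ ≤ ε := by
    have : κ₀ ≤ ε / 4 := by rw [hκ₀]; exact min_le_right _ _
    linarith only [this]
  obtain ⟨ϖ, hϖ, hB⟩ := w_nr ε ca κ₀ hε0 hca hκ₀0 hκ₀1 hκ₀ε
  obtain ⟨c₁, hc₁⟩ : ∃ c₁, c₁ = δ₃ / (2 * u) := ⟨_, rfl⟩
  have hc₁0 : 0 < c₁ := by rw [hc₁]; positivity
  have hc₁u : c₁ * u = δ₃ / 2 := by rw [hc₁]; field_simp
  refine ⟨min 1 (κ₀ * c₁ / 2), ϖ, c₁ / 16, lt_min one_pos (by positivity), min_le_left _ _, hϖ,
    by positivity, fun k' => ?_⟩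
  obtain ⟨ι, Y₀, hι, hB⟩ := hB k'
  obtain ⟨l, hl⟩ : ∃ l, l = Real.log (2 * 2 + 1) := ⟨_, rfl⟩
  have hl0 : 0 ≤ l := by
    rw [hl]
    exact Real.log_nonneg (by norm_num)
  obtain ⟨N₁, hN₁⟩ := exists_nat_ge (l / (ι * c₁ / 2))
  obtain ⟨N₂, hN₂⟩ := exists_nat_ge (l / (δ₃ / 4))
  obtain ⟨N₃, hN₃⟩ := exists_nat_ge ((Y₀ + 1) / c₁)
  obtain ⟨N₄, hN₄⟩ := exists_nat_ge (2 / (κ₀ * c₁))
  refine ⟨ι * c₁ / 4, N₁ + N₂ + N₃ + N₄, by positivity, ?_⟩
  intro m J F Γ G q i₀ w c M X X' hq hw hX hX' hM h1 h2 h3 h4 h5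
  have h0 := hq.nonneg
  have hXr : (0 : ℝ) ≤ X := Nat.cast_nonneg _
  have g1 : l ≤ ι * c₁ / 2 * X := by
    have a : (N₁ : ℝ) ≤ X := by exact_mod_cast (show N₁ ≤ X by omega)
    have := hN₁.trans a
    rw [div_le_iff₀ (by positivity)] at this
    linarith only [this]
  have g2 : l ≤ δ₃ / 4 * X := by
    have a : (N₂ : ℝ) ≤ X := by exact_mod_cast (show N₂ ≤ X by omega)
    have := hN₂.trans a
    rw [div_le_iff₀ (by positivity)] at this
    linarith only [this]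
  have g3 : (Y₀ : ℝ) + 1 ≤ c₁ * X := by
    have a : (N₃ : ℝ) ≤ X := by exact_mod_cast (show N₃ ≤ X by omega)
    have := hN₃.trans a
    rw [div_le_iff₀ (by positivity)] at this
    linarith only [this]
  have g4 : 2 ≤ κ₀ * c₁ * X := by
    have a : (N₄ : ℝ) ≤ X := by exact_mod_cast (show N₄ ≤ X by omega)
    have := hN₄.trans a
    rw [div_le_iff₀ (by positivity)] at this
    linarith only [this]
  rw [← hu]
  -- the trivial case
  rcases le_or_gt (X' * u) (δ₃ * X) with htr | htr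
  · have := CH_nonneg h0 (Uni.dg X' (fun ω => F.mx w c M ω i₀)) (fun ω => (F.blb w c M ω, F.T ω))
    linarith only [htr, this]
  obtain ⟨Y, hY⟩ : ∃ Y, Y = min X' (J - w) := ⟨_, rfl⟩
  have hYX' : Y ≤ X' := by rw [hY]; exact min_le_left _ _
  have hYJ : w + Y ≤ J := by
    have : Y ≤ J - w := by rw [hY]; exact min_le_right _ _
    omega
  have hYl : (X' : ℝ) - c₁ / 16 * X ≤ Y := by
    rw [hY]
    exact block_le hq hX' h4
  have hYX : Y ≤ X := hYX'.trans hX'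
  -- `Y ≥ c₁ X`
  have hYc : c₁ * X ≤ Y := by
    have a1 : 2 * (c₁ * X) * u ≤ X' * u := by
      have : 2 * (c₁ * X) * u = δ₃ * X := by
        calc 2 * (c₁ * X) * u = 2 * (c₁ * u) * X := by ring
          _ = δ₃ * X := by rw [hc₁u]; ring
      rw [this]
      exact htr.le
    have a2 : 2 * (c₁ * X) ≤ X' := le_of_mul_le_mul_right a1 hu0
    have a3 : 0 ≤ c₁ * X := by positivity
    linarith only [g3, hYl, a2]
  have hY0 : (0 : ℝ) < Y := by
    have : (0 : ℝ) ≤ Y₀ := Nat.cast_nonneg _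
    linarith only [g3, hYc]
  have hYr : (Y : ℝ) ≤ X := by exact_mod_cast hYX
  obtain ⟨η, hη⟩ : ∃ η, η = c₁ / 16 * X / Y := ⟨_, rfl⟩
  have hηY : η * Y = c₁ / 16 * X := by rw [hη]; field_simp
  have hιY : ι * c₁ * X ≤ ι * Y := by
    have := mul_le_mul_of_nonneg_left hYc hι.le
    linarith only [this]
  obtain ⟨d1, d2⟩ := ctx_det (c := c) (i₀ := i₀) hM
  have dT : Det q (fun ω => (F.blb w c M ω, F.T1 J ω)) (fun ω => (F.blb w c M ω, F.T ω)) := by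
    intro ω ω' _ _ e
    have e1 := Prod.ext_iff.mp e
    refine Prod.ext e1.1 ?_
    have e2 : F.T1 J ω = F.T1 J ω' := e1.2
    rw [T1_top, T1_top] at e2
    exact e2
  have dT' : Det q (fun ω => (F.blb w c M ω, F.T ω)) (fun ω => (F.blb w c M ω, F.T1 J ω)) := by
    intro ω ω' _ _ e
    have e1 := Prod.ext_iff.mp e
    refine Prod.ext e1.1 ?_
    show F.T1 J ω = F.T1 J ω'
    rw [T1_top, T1_top]
    exact e1.2
  have key := hB m J F q _ (F.blb w c M) (fun ω => M ω i₀) w (c i₀) Y J η hq hYJ le_rfl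
    (by
      have : (Y₀ : ℝ) ≤ Y := by linarith only [g3, hYc]
      exact_mod_cast this) d1 d2
    (by
      have a1 : dp q (F.T1 J) (fun ω => (lc (c i₀ + w + Y) (M ω i₀) (F.x1 w ω),
          lc (c i₀ + Y) (M ω i₀) (F.d ω))) (F.blb w c M) ≤ tT F q w c M X := by
        unfold tT
        refine dp_mono h0 ?_ ?_
        · intro ω ω' _ _ e
          show F.T1 J ω = F.T1 J ω'
          rw [T1_top, T1_top]
          exact (Prod.ext_iff.mp e).1
        · intro ω ω' _ _ e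
          have := lc_lbr (i₀ := i₀) hYX (Prod.ext_iff.mp e).1
          exact Prod.ext this.1 this.2
      have a2 : 0 ≤ ι * c₁ * X := by positivity
      linarith only [hl0, h1, g1, hιY, a1])
    (by
      have a1 : dp q (fun ω => lc (c i₀ + w + Y) (M ω i₀) (F.x1 J ω))
          (fun ω => lc (c i₀ + Y) (M ω i₀) (F.d ω)) (fun ω => (F.blb w c M ω, F.T1 J ω)) ≤
          dp q (Uni.dg Y (fun ω => F.mx w c M ω i₀))
          (fun ω => lc (c i₀ + Y) (M ω i₀) (F.d ω)) (fun ω => (F.blb w c M ω, F.T1 J ω)) + l := by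
        refine dp_le_add h0 ?_
        rw [hl]
        exact CH_lc_mx hq hw Y _ dT
      have a2 : dp q (Uni.dg Y (fun ω => F.mx w c M ω i₀))
          (fun ω => lc (c i₀ + Y) (M ω i₀) (F.d ω)) (fun ω => (F.blb w c M ω, F.T1 J ω)) ≤
          dp q (Uni.dg Y (fun ω => F.mx w c M ω i₀))
          (Uni.dg Y (fun ω => F.md c M ω i₀)) (fun ω => (F.blb w c M ω, F.T1 J ω)) := by
        refine dp_mono h0 (fun _ _ _ _ e => (Prod.ext_iff.mp e).1) ?_
        intro ω ω' _ _ e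
        have e1 := Prod.ext_iff.mp e
        exact (lc_md Y (Prod.ext_iff.mp e1.2).1).2 e1.1
      have a3 : dp q (Uni.dg Y (fun ω => F.mx w c M ω i₀))
          (Uni.dg Y (fun ω => F.md c M ω i₀)) (fun ω => (F.blb w c M ω, F.T1 J ω)) =
          dp q (Uni.dg Y (fun ω => F.mx w c M ω i₀))
          (Uni.dg Y (fun ω => F.md c M ω i₀)) (fun ω => (F.blb w c M ω, F.T ω)) :=
        dp_congr_cond h0 dT dT'
      have a4 := dp_drop h0 (Uni.dg Y (fun ω => F.mx w c M ω i₀))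
        (Uni.dg Y (fun ω => F.md c M ω i₀)) G (fun ω => (F.blb w c M ω, F.T ω))
      have a5 : dp q (Uni.dg Y (fun ω => F.md c M ω i₀)) (Uni.dg Y (fun ω => F.mx w c M ω i₀))
          (fun ω => (G ω, (F.blb w c M ω, F.T ω))) ≤ tB F q i₀ w c M G X := by
        unfold tB
        rw [dp_congr_cond h0 (b := fun ω => (G ω, (F.blb w c M ω, F.T ω)))
          (b' := cdn F w c M G)
          (fun ω ω' _ _ e => by
            have e1 := Prod.ext_iff.mp e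
            have e2 := Prod.ext_iff.mp e1.2
            exact Prod.ext e2.1 (Prod.ext e1.1 e2.2))
          (fun ω ω' _ _ e => by
            have e1 := Prod.ext_iff.mp e
            have e2 := Prod.ext_iff.mp e1.2
            exact Prod.ext e2.1 (Prod.ext e1.1 e2.2))]
        exact dp_mono h0 (fun ω ω' _ _ h => dg_mono hYX (Prod.ext_iff.mp h).1)
          (fun ω ω' _ _ h => dg_mono hYX (Prod.ext_iff.mp h).1)
      have a6 : dp q G (Uni.dg Y (fun ω => F.md c M ω i₀)) (fun ω => (F.blb w c M ω, F.T ω)) ≤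
          tM F q w c M G X := by
        unfold tM
        refine dp_mono h0 (fun _ _ _ _ h => (Prod.ext_iff.mp h).1) ?_
        intro ω ω' _ _ h
        exact (lbr_dig hYX (Prod.ext_iff.mp h).1 i₀).2
      rw [a3] at a2
      have a7 : ι * c₁ / 4 * X + ι * c₁ / 4 * X + ι * c₁ / 2 * X = ι * c₁ * X := by ring
      linarith only [h2, h3, g1, hιY, a1, a2, a4, a5, a6])
    (by
      rw [thR_J, hηY]
      refine le_trans ?_ h4
      refine Finset.sum_le_sum_of_subset_of_nonneg ?_ fun i _ _ => nr_nonneg h0 _ _ k' i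
      intro i hi
      rw [Finset.mem_range] at hi ⊢
      omega)
    (by
      intro E hE
      have b1 : κ₀ * Y / 2 ≤ (⌊κ₀ * Y⌋₊ : ℝ) := by
        have b2 : κ₀ * Y < ⌊κ₀ * Y⌋₊ + 1 := Nat.lt_floor_add_one _
        have b3 : 2 ≤ κ₀ * Y := by
          have := mul_le_mul_of_nonneg_left hYc hκ₀0.le
          linarith only [g4, this]
        linarith only [b2, b3]
      have b4 : min 1 (κ₀ * c₁ / 2) * X ≤ (⌊κ₀ * Y⌋₊ : ℝ) := by
        have b5 : min 1 (κ₀ * c₁ / 2) * X ≤ κ₀ * c₁ / 2 * X :=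
          mul_le_mul_of_nonneg_right (min_le_right _ _) hXr
        have := mul_le_mul_of_nonneg_left hYc hκ₀0.le
        linarith only [b1, b5, this]
      have b6 : ⌊κ₀ * Y⌋₊ ≤ Y := Nat.floor_le_of_le (mul_le_of_le_one_left hY0.le hκ₀1)
      refine (h5 E hE ⌊κ₀ * Y⌋₊ b4 (b6.trans hYX')).trans ?_
      have hc : ∀ ω, 0 ≤ Pool.Agent.H49.Ent.cond q E True ω := cond_nonneg h0 _ _
      refine CH_mono_left hc ?_
      intro ω ω' _ _ e
      have e1 := Prod.ext_iff.mp e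
      exact (lc_md _ e1.2).1 e1.1)
  -- the conclusion
  have f1 : CH q (fun ω => lc (c i₀ + w + Y) (M ω i₀) (F.x1 J ω))
      (fun ω => (F.blb w c M ω, F.T1 J ω)) ≤
      CH q (Uni.dg Y (fun ω => F.mx w c M ω i₀)) (fun ω => (F.blb w c M ω, F.T1 J ω)) + l := by
    have a1 := CH_le_add h0 (fun ω => lc (c i₀ + w + Y) (M ω i₀) (F.x1 J ω))
      (Uni.dg Y (fun ω => F.mx w c M ω i₀)) (fun ω => (F.blb w c M ω, F.T1 J ω))
    have a2 := CH_lc_mx (i₀ := i₀) hq hw Y (fun ω => (F.blb w c M ω, F.T1 J ω)) dT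
    rw [← hl] at a2
    linarith only [a1, a2]
  have f2 : CH q (Uni.dg Y (fun ω => F.mx w c M ω i₀)) (fun ω => (F.blb w c M ω, F.T1 J ω)) ≤
      CH q (Uni.dg Y (fun ω => F.mx w c M ω i₀)) (fun ω => (F.blb w c M ω, F.T ω)) :=
    CH_mono_cond h0 dT
  have f3 : CH q (Uni.dg Y (fun ω => F.mx w c M ω i₀)) (fun ω => (F.blb w c M ω, F.T ω)) ≤
      CH q (Uni.dg X' (fun ω => F.mx w c M ω i₀)) (fun ω => (F.blb w c M ω, F.T ω)) :=
    CH_mono_left h0 fun ω ω' _ _ e => dg_mono hYX' (Prod.ext_iff.mp e).1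
  rw [← hu] at key
  have e1 : (1 - ε - 3 * η) * (Y : ℝ) * u = Y * u - ε * u * Y - 3 * (η * Y) * u := by ring
  rw [e1, hηY, hεu] at key
  have e2 : (X' - c₁ / 16 * X) * u ≤ Y * u := mul_le_mul_of_nonneg_right hYl hu0.le
  have e3 : (X' - c₁ / 16 * X) * u = X' * u - (c₁ * u) * X / 16 := by ring
  have e4 : 3 * (c₁ / 16 * X) * u = 3 * (c₁ * u) * X / 16 := by ring
  rw [e3, hc₁u] at e2
  rw [e4, hc₁u] at key
  have e5 : δ₃ / 4 * (Y : ℝ) ≤ δ₃ / 4 * X := mul_le_mul_of_nonneg_left hYr (by positivity)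
  have e6 : 0 ≤ δ₃ * (X : ℝ) := by positivity
  linarith only [hl0, g2, key, f1, f2, f3, e2, e5]

end Pool.WF
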