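import Pool.Agent.H70.PC.NestT
import Pool.Agent.H81.PC.LxT
import Pool.Agent.H83.UEG.TwoW
import Pool.Agent.H78.PC.WUe

/-!
# The activity of the velocity in the contexts

`P` is a label of the exact point: it determines the exact point and the own line of the
directions. The context `G` is known up to a bounded number of values from `P` and `q` digits of the
velocity coordinate. Then the next digits of the velocity, given `G`, have at least the entropy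
which they have given `P`.
-/

set_option autoImplicit false

namespace Pool.WF

open Finset Real
open Pool.Agent.H49.Ent Pool.Agent.H32.Dense Pool.STK Pool.KA Pool.KSAT Pool.K2S Pool.OCG
  Pool.S6U Pool.UEG

variable {m J : ℕ}

/-- The cell of a coordinate of the velocity. -/
noncomputable def vc (F : Fam m J) (i : Fin m) (k : ℕ) (ω : F.Ω) : ℤ := ⌊(2 : ℝ) ^ k * F.d ω i⌋

theorem vc_down {F : Fam m J} {i : Fin m} {a b : ℕ} (h : a ≤ b) {ω ω' : F.Ω}
    (e : vc F i b ω = vc F i b ω') : vc F i a ω = vc F i a ω' := Pool.PC.floor_down h e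

/-- Digits of the velocity, given the context and given the point. -/
theorem act_core {F : Fam m J} {p : F.Ω → ℝ} (hp : IsLaw p) {S Γ : Type} {P : F.Ω → S}
    {G : F.Ω → Γ} {i : Fin m} {q X : ℕ} {C : ℝ}
    (hC : CH p G (fun ω => (P ω, vc F i q ω)) ≤ C) :
    CH p (vc F i (q + X)) P - CH p (vc F i q) P - C ≤ CH p (vc F i (q + X)) G := by
  have h0 := hp.nonneg
  have h1 := CH_of_det h0 (N := vc F i (q + X)) (N' := vc F i q) (Z := P)
    (fun ω ω' _ _ e => vc_down (by omega) (Prod.ext_iff.mp e).1)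
  have h2 := CH_le_add h0 (vc F i (q + X)) G (fun ω => (vc F i q ω, P ω))
  have h3 : CH p G (fun ω => (vc F i q ω, P ω)) ≤ CH p G (fun ω => (P ω, vc F i q ω)) :=
    CH_mono_cond h0 fun ω ω' _ _ e => by
      have := Prod.ext_iff.mp e
      exact Prod.ext this.2 this.1
  have h4 : CH p (vc F i (q + X)) (fun ω => (G ω, (vc F i q ω, P ω))) ≤
      CH p (vc F i (q + X)) G := CH_mono_cond h0 fun ω ω' _ _ e => (Prod.ext_iff.mp e).1
  linarith

/-- **A label of the exact point with the own line of the directions.** -/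
structure Own (F : Fam m J) (p : F.Ω → ℝ) (i0 : Fin m) {S : Type} (P : F.Ω → S)
    (e : F.Ω → Fin m → ℝ) (n : ℕ) (B : ℝ) : Prop where
  pt : ∀ ω ω', 0 < p ω → 0 < p ω' → P ω = P ω' → F.X J ω = F.X J ω' ∧ F.W ω = F.W ω'
  sl : ∀ ω ω', 0 < p ω → 0 < p ω' → P ω = P ω' → ∀ i, i ≠ i0 → e ω i = e ω' i
  bd : ∀ ω, 0 < p ω → ∀ i, |e ω i| ≤ B
  ln : ∀ ω ω', 0 < p ω → 0 < p ω' → P ω = P ω' → ∀ i, i ≠ i0 →
    |(F.d ω i - e ω i * F.d ω i0) - (F.d ω' i - e ω i * F.d ω' i0)| ≤ B / 2 ^ n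

section own

variable {F : Fam m J} {p : F.Ω → ℝ} {i0 : Fin m} {S : Type} {P : F.Ω → S}
  {e z : F.Ω → Fin m → ℝ} {n w q l X : ℕ} {B D : ℝ}

theorem Own.ev (h : Own F p i0 P e n B) (hp : ∀ ω, 0 ≤ p ω) (E : F.Ω → Prop) :
    Own F (Pool.Agent.H49.Ent.cond p E True) i0 P e n B :=
  ⟨fun ω ω' a b => h.pt ω ω' ((ev_pos hp).1 a).1 ((ev_pos hp).1 b).1,
    fun ω ω' a b => h.sl ω ω' ((ev_pos hp).1 a).1 ((ev_pos hp).1 b).1,
    fun ω a => h.bd ω ((ev_pos hp).1 a).1,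
    fun ω ω' a b => h.ln ω ω' ((ev_pos hp).1 a).1 ((ev_pos hp).1 b).1⟩

/-- The constant. -/
noncomputable def cvis (m : ℕ) (B D : ℝ) : ℝ :=
  m * Real.log (4 * D + 3) + 2 * (m * Real.log (2 * (m * D * (2 * (m * B + B))) + 3))

/-- The context from the label of the point and the digits of the velocity. -/
theorem Own.vis (h : Own F p i0 P e n B) (hp : IsLaw p) (hw : w ≤ J) (hB : 1 ≤ B) (hD : 1 ≤ D)
    (hn : q + l ≤ n) (hgr : ∀ ω i, ∃ a : ℤ, z ω i = a / 2 ^ l)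
    (hz : ∀ ω, 0 < p ω → ∀ i, i ≠ i0 → |e ω i - z ω i| ≤ D / 2 ^ l) :
    CH p (F.ctt w q l i0 z) (fun ω => (P ω, vc F i0 q ω)) ≤ cvis m B D := by
  have h0 := hp.nonneg
  have k1 := Pool.PC.CH_frame (F := F) (p := p) (i0 := i0) (z := e) (z' := z) hp
    (by linarith only [hD] : (0 : ℝ) ≤ D) hgr hz (fun ω => (P ω, vc F i0 q ω))
    (fun ω ω' a b c i hi => h.sl ω ω' a b (Prod.ext_iff.mp c).1 i hi)
  have k2 := Pool.PC.ctt_pt (F := F) (p := p) (i0 := i0) (z := z) (w := w) (q := q) (q' := q)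
    (l' := l) hp hw hB hD le_rfl hn h.bd hz
    (fun ω => (Pool.PC.zfr i0 (z ω), (P ω, vc F i0 q ω))) (by
      intro ω ω' hω hω' c
      have c1 := Prod.ext_iff.mp c
      have c2 := Prod.ext_iff.mp c1.2
      obtain ⟨a1, a2⟩ := h.pt ω ω' hω hω' c2.1
      refine ⟨a1, a2, fun i hi => ⟨h.sl ω ω' hω hω' c2.1 i hi, Pool.PC.zfr_eq c1.1 hi⟩, ?_,
        fun i hi => h.ln ω ω' hω hω' c2.1 i hi⟩
      have c3 : ⌊(2 : ℝ) ^ q * F.d ω i0⌋ = ⌊(2 : ℝ) ^ q * F.d ω' i0⌋ := c2.2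
      have c4 := Plk.abs_sub_lt_of_floor c3
      rw [← mul_sub, abs_mul, abs_of_pos (by positivity : (0 : ℝ) < 2 ^ q)] at c4
      rw [le_div_iff₀ (by positivity), mul_comm]
      linarith only [hB, c4])
  have k3 := CH_le_add h0 (F.ctt w q l i0 z) (fun ω => Pool.PC.zfr i0 (z ω))
    (fun ω => (P ω, vc F i0 q ω))
  unfold cvis
  linarith

/-- **Activity in the context** `ctt`. -/
theorem Own.act (h : Own F p i0 P e n B) (hp : IsLaw p) (hw : w ≤ J) (hB : 1 ≤ B) (hD : 1 ≤ D)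
    (hn : q + l ≤ n) (hgr : ∀ ω i, ∃ a : ℤ, z ω i = a / 2 ^ l)
    (hz : ∀ ω, 0 < p ω → ∀ i, i ≠ i0 → |e ω i - z ω i| ≤ D / 2 ^ l) :
    CH p (vc F i0 (q + X)) P - CH p (vc F i0 q) P - cvis m B D ≤
      CH p (vc F i0 (q + X)) (F.ctt w q l i0 z) :=
  act_core hp (h.vis hp hw hB hD hn hgr hz)

/-- The context of helper81 is a function of the context `ctt`. -/
theorem tlb_ctt (hz0 : ∀ ω, z ω i0 = 0) (hq : q + w ≤ J) {ω ω' : F.Ω}
    (he : F.ctt w q l i0 z ω = F.ctt w q l i0 z ω') :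
    Pool.PC.tlb F w q l (min (q + w + l) J) i0 z ω =
      Pool.PC.tlb F w q l (min (q + w + l) J) i0 z ω' := by
  obtain ⟨a1, a2, a3, a4, a5⟩ := Box.mlb_ext (show F.mlb w
    (fun i => min (Pool.PC.qcv q l i0 i + w) J) (Pool.PC.qcv q l i0)
    (fun ω => Pool.PC.zfr i0 (z ω)) ω = F.mlb w
    (fun i => min (Pool.PC.qcv q l i0 i + w) J) (Pool.PC.qcv q l i0)
    (fun ω => Pool.PC.zfr i0 (z ω)) ω' from he)
  have b1 : z ω = z ω' := by
    funext i
    by_cases hi : i = i0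
    · rw [hi, hz0, hz0]
    · exact Pool.PC.zfr_eq a2 hi
  refine Prod.ext (Prod.ext (Prod.ext a1 b1) (Prod.ext ?_ ?_)) a5
  · funext i
    have e3 : ⌊(2 : ℝ) ^ min (Pool.PC.qcv q l i0 i + w) J *
        mco (Pool.PC.zfr i0 (z ω)) (F.x1 w ω) i⌋ =
      ⌊(2 : ℝ) ^ min (Pool.PC.qcv q l i0 i + w) J *
        mco (Pool.PC.zfr i0 (z ω')) (F.x1 w ω') i⌋ := congrFun a3 i
    show Pool.PC.pps F w (q + w) (min (q + w + l) J) i0 z ω i =
      Pool.PC.pps F w (q + w) (min (q + w + l) J) i0 z ω' i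
    unfold Pool.PC.pps
    by_cases hi : i = i0
    · rw [if_pos hi, if_pos hi]
      subst hi
      rw [Pool.PC.zfr_i0, Pool.PC.zfr_i0] at e3
      unfold Pool.PC.qcv at e3
      rw [if_pos rfl, min_eq_left hq] at e3
      exact e3
    · rw [if_neg hi, if_neg hi]
      rw [Pool.PC.zfr_ne hi, Pool.PC.zfr_ne hi] at e3
      unfold Pool.PC.qcv at e3
      rw [if_neg hi] at e3
      have e4 : q + l + w = q + w + l := by ring
      rw [e4] at e3
      exact e3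
  · funext i
    have e3 : ⌊(2 : ℝ) ^ Pool.PC.qcv q l i0 i * mco (Pool.PC.zfr i0 (z ω)) (F.d ω) i⌋ =
      ⌊(2 : ℝ) ^ Pool.PC.qcv q l i0 i * mco (Pool.PC.zfr i0 (z ω')) (F.d ω') i⌋ := congrFun a4 i
    show ⌊(2 : ℝ) ^ q * pco l i0 (z ω) (F.d ω) i⌋ = ⌊(2 : ℝ) ^ q * pco l i0 (z ω') (F.d ω') i⌋
    unfold pco
    by_cases hi : i = i0
    · rw [if_pos hi, if_pos hi]
      subst hi
      rw [Pool.PC.zfr_i0, Pool.PC.zfr_i0] at e3
      unfold Pool.PC.qcv at e3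
      rw [if_pos rfl] at e3
      exact e3
    · rw [if_neg hi, if_neg hi]
      rw [Pool.PC.zfr_ne hi, Pool.PC.zfr_ne hi] at e3
      unfold Pool.PC.qcv at e3
      rw [if_neg hi, pow_add, mul_assoc, mul_assoc] at e3
      exact e3

/-- **Activity in the context** `tlb`. -/
theorem Own.act_tlb (h : Own F p i0 P e n B) (hp : IsLaw p) (hB : 1 ≤ B) (hD : 1 ≤ D)
    (hn : q + l ≤ n) (hgr : ∀ ω i, ∃ a : ℤ, z ω i = a / 2 ^ l) (hz0 : ∀ ω, z ω i0 = 0)
    (hq : q + w ≤ J) (hz : ∀ ω, 0 < p ω → ∀ i, i ≠ i0 → |e ω i - z ω i| ≤ D / 2 ^ l) :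
    CH p (vc F i0 (q + X)) P - CH p (vc F i0 q) P - cvis m B D ≤
      CH p (vc F i0 (q + X)) (Pool.PC.tlb F w q l (min (q + w + l) J) i0 z) :=
  (h.act hp (by omega) hB hD hn hgr hz).trans
    (CH_mono_cond hp.nonneg fun _ _ _ _ c => tlb_ctt hz0 hq c)

end own

/-! ### The contexts of the U-step -/

section ue

variable {F : Fam 2 J} {p : F.Ω → ℝ} {σ : Fin 2 → Fin 2} {a : F.Ω → ℝ} {w q v : ℕ}

/-- The frame with the slope `a`. -/
def za (i0 : Fin 2) (a : F.Ω → ℝ) (ω : F.Ω) (i : Fin 2) : ℝ := if i = i0 then 0 else a ω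

theorem two_cases (hσ : Function.Injective σ) (i : Fin 2) : i = σ 0 ∨ i = σ 1 := by
  have h01 : σ 0 ≠ σ 1 := fun e => by have := hσ e; simp at this
  generalize σ 0 = x at *
  generalize σ 1 = y at *
  fin_cases i <;> fin_cases x <;> fin_cases y <;> simp_all

/-- The context of the U-step is the context `ctt`. -/
theorem blb_ctt (hσ : Function.Injective σ) (hq : v + q + w ≤ J) {ω ω' : F.Ω} :
    F.ctt w q v (σ 0) (za (σ 0) a) ω = F.ctt w q v (σ 0) (za (σ 0) a) ω' ↔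
    F.blb w (cv2 v q) (frm2 σ a) ω = F.blb w (cv2 v q) (frm2 σ a) ω' := by
  have h01 : σ 1 ≠ σ 0 := fun e => by have := hσ e; simp at this
  have c0 : ∀ (x : Fin 2 → ℝ) (ω : F.Ω), mco (Pool.PC.zfr (σ 0) (za (σ 0) a ω)) x (σ 0) =
      mco (tfr2 σ (a ω)) x 0 := by
    intro x ω
    rw [Pool.PC.zfr_i0, mco2_0]
  have c1 : ∀ (x : Fin 2 → ℝ) (ω : F.Ω), mco (Pool.PC.zfr (σ 0) (za (σ 0) a ω)) x (σ 1) =
      mco (tfr2 σ (a ω)) x 1 := by
    intro x ω
    rw [Pool.PC.zfr_ne h01, mco2_1]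
    unfold za
    rw [if_neg h01]
  have p0 : min (Pool.PC.qcv q v (σ 0) (σ 0) + w) J = q + w := by
    unfold Pool.PC.qcv
    rw [if_pos rfl]
    omega
  have p1 : min (Pool.PC.qcv q v (σ 0) (σ 1) + w) J = v + q + w := by
    unfold Pool.PC.qcv
    rw [if_neg h01]
    omega
  have q0 : Pool.PC.qcv q v (σ 0) (σ 0) = q := by
    unfold Pool.PC.qcv
    rw [if_pos rfl]
  have q1 : Pool.PC.qcv q v (σ 0) (σ 1) = v + q := by
    unfold Pool.PC.qcv
    rw [if_neg h01]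
    omega
  constructor
  · intro h
    obtain ⟨a1, a2, a3, a4, a5⟩ := Box.mlb_ext (show F.mlb w
      (fun i => min (Pool.PC.qcv q v (σ 0) i + w) J) (Pool.PC.qcv q v (σ 0))
      (fun ω => Pool.PC.zfr (σ 0) (za (σ 0) a ω)) ω = F.mlb w
      (fun i => min (Pool.PC.qcv q v (σ 0) i + w) J) (Pool.PC.qcv q v (σ 0))
      (fun ω => Pool.PC.zfr (σ 0) (za (σ 0) a ω)) ω' from h)
    have b1 : a ω = a ω' := by
      have := Pool.PC.zfr_eq a2 h01
      unfold za at this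
      rw [if_neg h01, if_neg h01] at this
      exact this
    have k3 : ∀ i, ⌊(2 : ℝ) ^ min (Pool.PC.qcv q v (σ 0) i + w) J *
        mco (Pool.PC.zfr (σ 0) (za (σ 0) a ω)) (F.x1 w ω) i⌋ =
      ⌊(2 : ℝ) ^ min (Pool.PC.qcv q v (σ 0) i + w) J *
        mco (Pool.PC.zfr (σ 0) (za (σ 0) a ω')) (F.x1 w ω') i⌋ := fun i => congrFun a3 i
    have k4 : ∀ i, ⌊(2 : ℝ) ^ Pool.PC.qcv q v (σ 0) i *
        mco (Pool.PC.zfr (σ 0) (za (σ 0) a ω)) (F.d ω) i⌋ =
      ⌊(2 : ℝ) ^ Pool.PC.qcv q v (σ 0) i *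
        mco (Pool.PC.zfr (σ 0) (za (σ 0) a ω')) (F.d ω') i⌋ := fun i => congrFun a4 i
    refine Box.mlb_mk a1 ?_ ?_ ?_ a5
    · unfold frm2
      rw [b1]
    · funext i
      fin_cases i
      · have := k3 (σ 0)
        rw [p0, c0, c0] at this
        exact this
      · have := k3 (σ 1)
        rw [p1, c1, c1] at this
        exact this
    · funext i
      fin_cases i
      · have := k4 (σ 0)
        rw [q0, c0, c0] at this
        exact this
      · have := k4 (σ 1)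
        rw [q1, c1, c1] at this
        exact this
  · intro h
    obtain ⟨a1, a2, a3, a4, a5⟩ := Box.mlb_ext h
    have b1 : a ω = a ω' := tfr2_eq hσ a2
    have k3 : ∀ i, ⌊(2 : ℝ) ^ (cv2 v q i + w) * mco (tfr2 σ (a ω)) (F.x1 w ω) i⌋ =
      ⌊(2 : ℝ) ^ (cv2 v q i + w) * mco (tfr2 σ (a ω')) (F.x1 w ω') i⌋ := fun i => congrFun a3 i
    have k4 : ∀ i, ⌊(2 : ℝ) ^ (cv2 v q i) * mco (tfr2 σ (a ω)) (F.d ω) i⌋ =
      ⌊(2 : ℝ) ^ (cv2 v q i) * mco (tfr2 σ (a ω')) (F.d ω') i⌋ := fun i => congrFun a4 i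
    refine Box.mlb_mk (k := fun i => min (Pool.PC.qcv q v (σ 0) i + w) J)
      (M := fun ω => Pool.PC.zfr (σ 0) (za (σ 0) a ω)) a1 ?_ ?_ ?_ a5
    · have : za (σ 0) a ω = za (σ 0) a ω' := by
        unfold za
        rw [b1]
      show Pool.PC.zfr (σ 0) (za (σ 0) a ω) = Pool.PC.zfr (σ 0) (za (σ 0) a ω')
      rw [this]
    · funext i
      show ⌊(2 : ℝ) ^ min (Pool.PC.qcv q v (σ 0) i + w) J *
          mco (Pool.PC.zfr (σ 0) (za (σ 0) a ω)) (F.x1 w ω) i⌋ =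
        ⌊(2 : ℝ) ^ min (Pool.PC.qcv q v (σ 0) i + w) J *
          mco (Pool.PC.zfr (σ 0) (za (σ 0) a ω')) (F.x1 w ω') i⌋
      rcases two_cases hσ i with hi | hi
      · rw [hi, p0, c0, c0]
        exact k3 0
      · rw [hi, p1, c1, c1]
        exact k3 1
    · funext i
      show ⌊(2 : ℝ) ^ Pool.PC.qcv q v (σ 0) i *
          mco (Pool.PC.zfr (σ 0) (za (σ 0) a ω)) (F.d ω) i⌋ =
        ⌊(2 : ℝ) ^ Pool.PC.qcv q v (σ 0) i *
          mco (Pool.PC.zfr (σ 0) (za (σ 0) a ω')) (F.d ω') i⌋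
      rcases two_cases hσ i with hi | hi
      · rw [hi, q0, c0, c0]
        exact k4 0
      · rw [hi, q1, c1, c1]
        exact k4 1

/-- The digits of the velocity in the cell, given the context. -/
theorem dg_vc (X : ℕ) {ω ω' : F.Ω} (h : F.blb w (cv2 v q) (frm2 σ a) ω =
    F.blb w (cv2 v q) (frm2 σ a) ω')
    (e : Uni.dg X (fun ω => F.md (cv2 v q) (frm2 σ a) ω 0) ω =
      Uni.dg X (fun ω => F.md (cv2 v q) (frm2 σ a) ω 0) ω') :
    vc F (σ 0) (q + X) ω = vc F (σ 0) (q + X) ω' := by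
  have h1 := (lc_md (i₀ := (0 : Fin 2)) X h).2 e
  have h2 : ∀ ω : F.Ω, lc (cv2 v q 0 + X) (frm2 σ a ω 0) (F.d ω) = vc F (σ 0) (q + X) ω := by
    intro ω
    have h3 : ∑ j, frm2 σ a ω 0 j * F.d ω j = F.d ω (σ 0) := mco2_0 σ (a ω) (F.d ω)
    unfold lc vc
    rw [h3]
    rfl
  rw [h2, h2] at h1
  exact h1

/-- **Activity in the contexts of the U-step.** -/
theorem Own.act_blb {S : Type} {P : F.Ω → S} {e : F.Ω → Fin 2 → ℝ} {n X : ℕ} {B D : ℝ}
    (h : Own F p (σ 0) P e n B) (hp : IsLaw p) (hσ : Function.Injective σ) (hB : 1 ≤ B)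
    (hD : 1 ≤ D) (hn : q + v ≤ n) (hq : v + q + w ≤ J) (hgr : ∀ ω, ∃ k : ℤ, a ω = k / 2 ^ v)
    (hz : ∀ ω, 0 < p ω → |e ω (σ 1) - a ω| ≤ D / 2 ^ v) :
    CH p (vc F (σ 0) (q + X)) P - CH p (vc F (σ 0) q) P - cvis 2 B D ≤
      CH p (Uni.dg X (fun ω => F.md (cv2 v q) (frm2 σ a) ω 0))
        (F.blb w (cv2 v q) (frm2 σ a)) := by
  have h0 := hp.nonneg
  have k1 := h.act (z := za (σ 0) a) (w := w) (X := X) hp (by omega) hB hD hn (by
      intro ω i
      unfold za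
      by_cases hi : i = σ 0
      · exact ⟨0, by rw [if_pos hi]; simp⟩
      · rw [if_neg hi]
        exact hgr ω) (by
      intro ω hω i hi
      unfold za
      rw [if_neg hi]
      rcases two_cases hσ i with h1 | h1
      · exact absurd h1 hi
      · rw [h1]
        exact hz ω hω)
  refine k1.trans ?_
  have k2 : CH p (vc F (σ 0) (q + X)) (F.ctt w q v (σ 0) (za (σ 0) a)) ≤
      CH p (vc F (σ 0) (q + X)) (F.blb w (cv2 v q) (frm2 σ a)) :=
    CH_mono_cond h0 fun _ _ _ _ c => (blb_ctt hσ hq).1 c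
  refine k2.trans ?_
  refine CH_mono_left h0 ?_
  intro ω ω' _ _ c
  have c1 := Prod.ext_iff.mp c
  exact dg_vc X c1.2 c1.1

end ue

/-! ### From finitely many precisions to all -/

/-- Growth between all integers from the values at finitely many places. -/
theorem grid_growth (c χ C qa qb : ℝ) (hc : 0 < c) (hχ : 0 < χ) (hqa : 0 ≤ qa) (hqb : qb ≤ 1) :
    ∃ (Q : Finset ℚ) (h : ℝ) (J₀ : ℕ), 0 < h ∧ (∀ x ∈ Q, (0 : ℝ) ≤ x ∧ (x : ℝ) ≤ 1) ∧
      ∀ (J : ℕ) (H : ℕ → ℝ) (A : ℝ → ℝ), J₀ ≤ J → Monotone H →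
        (∀ x ∈ Q, |H ⌊(x : ℝ) * J⌋₊ - A x * J| ≤ h * J) →
        (∀ x y, qa ≤ x → x + χ / 2 ≤ y → y ≤ qb → c * (y - x) ≤ A y - A x) →
        ∀ q X : ℕ, χ * J ≤ X → qa * J ≤ q → (q + X : ℕ) ≤ qb * J →
          c / 2 * X + C ≤ H (q + X) - H q := by
  obtain ⟨N, hN⟩ := exists_nat_gt (16 / χ)
  have hN0 : (0 : ℝ) < N := lt_trans (by positivity) hN
  have hN1 : 16 ≤ N * χ := by
    rw [div_lt_iff₀ hχ] at hN
    exact hN.le
  obtain ⟨J₁, hJ₁⟩ := exists_nat_gt (16 / χ)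
  obtain ⟨J₂, hJ₂⟩ := exists_nat_ge (16 * |C| / (c * χ))
  refine ⟨(Finset.range (N + 1)).image (fun j : ℕ => (j : ℚ) / N), c * χ / 32, max J₁ J₂,
    by positivity, ?_, ?_⟩
  · intro x hx
    rw [Finset.mem_image] at hx
    obtain ⟨j, hj, rfl⟩ := hx
    rw [Finset.mem_range] at hj
    push_cast
    constructor
    · positivity
    · rw [div_le_one hN0]
      exact_mod_cast (show j ≤ N by omega)
  intro J H A hJ hH hQ hA q X hX hq hqX
  have hJ1 : (J₁ : ℝ) ≤ J := by exact_mod_cast (le_max_left _ _).trans hJ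
  have hJ2 : (J₂ : ℝ) ≤ J := by exact_mod_cast (le_max_right _ _).trans hJ
  have hJ16 : 16 / χ < J := hJ₁.trans_le hJ1
  have hJ0 : (0 : ℝ) < J := lt_trans (by positivity) hJ16
  have hJχ : 16 < χ * J := by
    rw [div_lt_iff₀ hχ] at hJ16
    linarith only [hJ16]
  have hCJ : |C| ≤ c * χ / 16 * J := by
    have := hJ₂.trans hJ2
    rw [div_le_iff₀ (by positivity)] at this
    linarith only [this]
  have hX0 : (0 : ℝ) < X := by linarith only [hX, hJχ]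
  push_cast at hqX
  -- the grid points
  obtain ⟨j₁, hj₁⟩ : ∃ j₁, j₁ = ⌈((q : ℝ) + 1) * N / J⌉₊ := ⟨_, rfl⟩
  obtain ⟨j₂, hj₂⟩ : ∃ j₂, j₂ = ⌊((q : ℝ) + X) * N / J⌋₊ := ⟨_, rfl⟩
  have a1 : ((q : ℝ) + 1) * N / J ≤ j₁ := by rw [hj₁]; exact Nat.le_ceil _
  have a2 : (j₁ : ℝ) < ((q : ℝ) + 1) * N / J + 1 := by
    rw [hj₁]
    exact Nat.ceil_lt_add_one (by positivity)
  have a3 : (j₂ : ℝ) ≤ ((q : ℝ) + X) * N / J := by
    rw [hj₂]
    exact Nat.floor_le (by positivity)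
  have a4 : ((q : ℝ) + X) * N / J < j₂ + 1 := by
    rw [hj₂]
    exact Nat.lt_floor_add_one _
  rw [div_le_iff₀ hJ0] at a1
  rw [← sub_lt_iff_lt_add, lt_div_iff₀ hJ0] at a2
  rw [le_div_iff₀ hJ0] at a3
  rw [div_lt_iff₀ hJ0] at a4
  obtain ⟨x₁, hx₁⟩ : ∃ x₁ : ℝ, x₁ = j₁ / N := ⟨_, rfl⟩
  obtain ⟨x₂, hx₂⟩ : ∃ x₂ : ℝ, x₂ = j₂ / N := ⟨_, rfl⟩
  have e1 : x₁ * N = j₁ := by rw [hx₁]; field_simp
  have e2 : x₂ * N = j₂ := by rw [hx₂]; field_simp
  rw [← e1] at a1 a2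
  rw [← e2] at a3 a4
  have b1 : (q : ℝ) + 1 ≤ x₁ * J := by
    have : ((q : ℝ) + 1) * N ≤ (x₁ * J) * N := by linarith only [a1]
    exact le_of_mul_le_mul_right this hN0
  have b2 : x₁ * J * N < ((q : ℝ) + 1) * N + J := by linarith only [a2]
  have b3 : x₂ * J ≤ q + X := by
    have : (x₂ * J) * N ≤ ((q : ℝ) + X) * N := by linarith only [a3]
    exact le_of_mul_le_mul_right this hN0
  have b4 : ((q : ℝ) + X) * N < x₂ * J * N + J := by linarith only [a4]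
  -- the mesh
  have m1 : (J : ℝ) ≤ χ / 16 * J * N := by
    have := mul_le_mul_of_nonneg_right hN1 hJ0.le
    linarith only [this]
  have b2' : x₁ * J < q + 1 + χ / 16 * J := by
    have : x₁ * J * N < (q + 1 + χ / 16 * J) * N := by linarith only [a2, m1]
    exact lt_of_mul_lt_mul_right this hN0.le
  have b4' : (q : ℝ) + X < x₂ * J + χ / 16 * J := by
    have : ((q : ℝ) + X) * N < (x₂ * J + χ / 16 * J) * N := by linarith only [a4, m1]
    exact lt_of_mul_lt_mul_right this hN0.le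
  have c1 : 3 / 4 * X ≤ (x₂ - x₁) * J := by
    have : (x₂ - x₁) * J = x₂ * J - x₁ * J := by ring
    rw [this]
    linarith only [hX, hJχ, b2', b4']
  have c2 : x₁ + χ / 2 ≤ x₂ := by
    have : χ / 2 * J ≤ (x₂ - x₁) * J := by linarith only [hX, hJχ, b2', b4']
    have := le_of_mul_le_mul_right this hJ0
    linarith only [this]
  have c3 : qa ≤ x₁ := by
    have : qa * J ≤ x₁ * J := by linarith only [hq, b1]
    exact le_of_mul_le_mul_right this hJ0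
  have c4 : x₂ ≤ qb := by
    have : x₂ * J ≤ qb * J := by linarith only [hqX, b3]
    exact le_of_mul_le_mul_right this hJ0
  have c5 : x₂ ≤ 1 := c4.trans hqb
  have g1 := hA x₁ x₂ c3 c2 c4
  have mem : ∀ j : ℕ, (j : ℝ) / N ≤ 1 → ((j : ℚ) / N) ∈
      (Finset.range (N + 1)).image (fun j : ℕ => (j : ℚ) / N) := by
    intro j hj
    refine Finset.mem_image_of_mem _ ?_
    rw [Finset.mem_range]
    rw [div_le_one hN0] at hj
    have : j ≤ N := by exact_mod_cast hj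
    omega
  have g2 := hQ _ (mem j₁ (by rw [← hx₁]; linarith only [hχ, hqb, c2, c4]))
  have g3 := hQ _ (mem j₂ (by rw [← hx₂]; exact c5))
  push_cast at g2 g3
  rw [← hx₁] at g2
  rw [← hx₂] at g3
  have d1 : H q ≤ H ⌊x₁ * J⌋₊ := by
    refine hH ?_
    refine Nat.le_floor ?_
    linarith only [b1]
  have d2 : H ⌊x₂ * J⌋₊ ≤ H (q + X) := by
    refine hH ?_
    have : (⌊x₂ * J⌋₊ : ℝ) ≤ q + X := by
      refine (Nat.floor_le ?_).trans b3
      have : 0 ≤ x₂ := by linarith only [hχ, hqa, c2, c3]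
      positivity
    exact_mod_cast this
  rw [abs_le] at g2 g3
  have f1 : c * ((x₂ - x₁) * J) ≤ (A x₂ - A x₁) * J := by
    have := mul_le_mul_of_nonneg_right g1 hJ0.le
    linarith only [this]
  have f2 : c * (3 / 4 * X) ≤ c * ((x₂ - x₁) * J) := mul_le_mul_of_nonneg_left c1 hc.le
  have f3 : c * (χ * J) ≤ c * X := mul_le_mul_of_nonneg_left hX hc.le
  have f4 := le_abs_self C
  have f5 : (A x₂ - A x₁) * J = A x₂ * J - A x₁ * J := by ring
  linarith only [hCJ, g2, g3, d1, d2, f1, f2, f3, f4]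

end Pool.WF
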