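import Pool.Agent.H78.PC.Act
import Pool.Agent.H15.PC.Fam
import Pool.Agent.H87.PC.QCell

/-!
# The activity in the contexts of a level

From the field `ac` of `Pool.PC.Lvl` (differences of entropies at the precisions of a mesh, on all
events) to the activity of the velocity at all integers of a cell of precisions, in the contexts
`ctt`, `tlb` and `blb`, on all events.
-/

set_option autoImplicit false

namespace Pool.WF

open Finset Real
open Pool.Agent.H49.Ent Pool.Agent.H32.Dense Pool.STK Pool.KA Pool.KSAT Pool.K2S Pool.OCG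
  Pool.S6U Pool.UEG Pool.PC

variable {m J : ℕ}

/-- The slope of the box as a frame. -/
noncomputable def zB {F : Fam 2 J} (B : Bx F) (ω : F.Ω) (i : Fin 2) : ℝ :=
  if i = B.i0 then 0 else B.a ω

theorem oth_ne (i : Fin 2) : oth i ≠ i := by
  unfold oth
  fin_cases i <;> simp

theorem eq_oth {i j : Fin 2} (h : j ≠ i) : j = oth i := by
  unfold oth
  fin_cases i <;> fin_cases j <;> simp_all

/-- The exact point with the labels of the boxes is a label with the own line. -/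
theorem own_ptk {F : Fam 2 J} {B : ℕ → Bx F} {k : ℕ} (hok : (B k).Ok (fun _ => True)) :
    Own F F.p (B k).i0 (ptk B k) (zB (B k)) (B k).n 1 := by
  have lab : ∀ ω ω', ptk B k ω = ptk B k ω' → (B k).lab ω = (B k).lab ω' := by
    intro ω ω' e
    have e1 : clab B k ω = clab B k ω' := (Prod.ext_iff.mp e).2
    have e2 := congrFun e1 k
    unfold clab at e2
    rw [if_pos le_rfl, if_pos le_rfl] at e2
    exact e2
  have sla : ∀ ω ω', ptk B k ω = ptk B k ω' → (B k).a ω = (B k).a ω' := fun ω ω' e =>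
    (Prod.ext_iff.mp (lab ω ω' e)).1
  refine ⟨?_, ?_, ?_, ?_⟩
  · intro ω ω' _ _ e
    have e1 : pt F ω = pt F ω' := (Prod.ext_iff.mp e).1
    exact ⟨(Prod.ext_iff.mp e1).1, (Prod.ext_iff.mp e1).2⟩
  · intro ω ω' _ _ e i hi
    unfold zB
    rw [if_neg hi, if_neg hi]
    exact sla ω ω' e
  · intro ω hω i
    unfold zB
    split_ifs
    · rw [abs_zero]
      exact zero_le_one
    · exact hok.sl ω ⟨hω, trivial⟩
  · intro ω ω' _ _ e i hi
    have e1 := lab ω ω' e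
    have e2 : ⌊(2 : ℝ) ^ (B k).n * (B k).pr ω (F.d ω)⌋ =
        ⌊(2 : ℝ) ^ (B k).n * (B k).pr ω' (F.d ω')⌋ :=
      (Prod.ext_iff.mp (Prod.ext_iff.mp e1).2).2
    have e3 := Plk.abs_sub_lt_of_floor e2
    rw [← mul_sub, abs_mul, abs_of_pos (by positivity : (0 : ℝ) < 2 ^ (B k).n)] at e3
    rw [le_div_iff₀ (by positivity), mul_comm]
    refine le_trans (le_of_eq ?_) e3
    congr 2
    unfold zB Bx.pr
    rw [if_neg hi, eq_oth hi, sla ω ω' e]

/-! ### From the mesh to all integers -/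

/-- Growth between all integers of a cell, from lower bounds for the growth between the places of a
mesh; `H a b` is the growth between `a` and `b`. -/
theorem mesh_growth (c χ C : ℝ) (hc : 0 < c) (hχ : 0 < χ) : ∃ n₀ : ℕ, 1 ≤ n₀ ∧ ∀ n : ℕ,
    n₀ ≤ n → ∃ (h₀ : ℝ) (J₀ : ℕ), 0 < h₀ ∧
      ∀ (J : ℕ) (h ya yb : ℝ) (H : ℕ → ℕ → ℝ) (A : ℝ → ℝ), J₀ ≤ J → h ≤ h₀ → 0 ≤ ya → yb ≤ 1 →
        (∀ a a' b b', a ≤ a' → b' ≤ b → H a' b' ≤ H a b) →
        (∀ i j, i ≤ j → j ≤ n → (msh J n j : ℝ) ≤ yb * J →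
          (A (j / n) - A (i / n) - h) * J ≤ H (msh J n i) (msh J n j)) →
        (∀ x y, ya ≤ x → x + χ / 2 ≤ y → y ≤ yb → c * (y - x) ≤ A y - A x) →
        ∀ a X : ℕ, χ * J ≤ X → ya * J ≤ a → ((a + X : ℕ) : ℝ) ≤ yb * J →
          c / 2 * X + C ≤ H a (a + X) := by
  obtain ⟨N, hN⟩ := exists_nat_gt (16 / χ)
  refine ⟨N + 1, by omega, fun n hn => ?_⟩
  have hn1 : (N : ℝ) < n := by exact_mod_cast (show N < n by omega)
  have hn0 : (0 : ℝ) < n := lt_of_le_of_lt (Nat.cast_nonneg _) hn1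
  have hN1 : 16 ≤ n * χ := by
    have := hN.trans hn1
    rw [div_lt_iff₀ hχ] at this
    exact this.le
  obtain ⟨J₁, hJ₁⟩ := exists_nat_gt (16 / χ)
  obtain ⟨J₂, hJ₂⟩ := exists_nat_ge (16 * |C| / (c * χ))
  refine ⟨c * χ / 16, max J₁ J₂, by positivity, ?_⟩
  intro J h ya yb H A hJ hh hya hyb hH hQ hA a X hX hq hqX
  have hJ1 : (J₁ : ℝ) ≤ J := by exact_mod_cast (le_max_left _ _).trans hJ
  have hJ2 : (J₂ : ℝ) ≤ J := by exact_mod_cast (le_max_right _ _).trans hJ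
  have hJ16 : 16 / χ < J := hJ₁.trans_le hJ1
  have hJ0 : (0 : ℝ) < J := lt_trans (by positivity) hJ16
  have hJχ : 16 < χ * J := by
    rw [div_lt_iff₀ hχ] at hJ16
    linarith
  have hCJ : |C| ≤ c * χ / 16 * J := by
    have := hJ₂.trans hJ2
    rw [div_le_iff₀ (by positivity)] at this
    linarith
  have hX0 : (0 : ℝ) < X := by linarith
  have hqX' : (a : ℝ) + X ≤ yb * J := by exact_mod_cast hqX
  -- the places of the mesh
  obtain ⟨i, hi⟩ : ∃ i, i = ⌈((a : ℝ) + 1) * n / J⌉₊ := ⟨_, rfl⟩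
  obtain ⟨j, hj⟩ : ∃ j, j = ⌊((a : ℝ) + X) * n / J⌋₊ := ⟨_, rfl⟩
  have a1 : ((a : ℝ) + 1) * n / J ≤ i := by rw [hi]; exact Nat.le_ceil _
  have a2 : (i : ℝ) < ((a : ℝ) + 1) * n / J + 1 := by
    rw [hi]
    exact Nat.ceil_lt_add_one (by positivity)
  have a3 : (j : ℝ) ≤ ((a : ℝ) + X) * n / J := by
    rw [hj]
    exact Nat.floor_le (by positivity)
  have a4 : ((a : ℝ) + X) * n / J < j + 1 := by
    rw [hj]
    exact Nat.lt_floor_add_one _
  rw [div_le_iff₀ hJ0] at a1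
  rw [← sub_lt_iff_lt_add, lt_div_iff₀ hJ0] at a2
  rw [le_div_iff₀ hJ0] at a3
  rw [div_lt_iff₀ hJ0] at a4
  obtain ⟨x₁, hx₁⟩ : ∃ x₁ : ℝ, x₁ = i / n := ⟨_, rfl⟩
  obtain ⟨x₂, hx₂⟩ : ∃ x₂ : ℝ, x₂ = j / n := ⟨_, rfl⟩
  have e1 : x₁ * n = i := by rw [hx₁]; field_simp
  have e2 : x₂ * n = j := by rw [hx₂]; field_simp
  rw [← e1] at a1 a2
  rw [← e2] at a3 a4
  have b1 : (a : ℝ) + 1 ≤ x₁ * J := by
    have : ((a : ℝ) + 1) * n ≤ (x₁ * J) * n := by linarith
    exact le_of_mul_le_mul_right this hn0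
  have b3 : x₂ * J ≤ a + X := by
    have : (x₂ * J) * n ≤ ((a : ℝ) + X) * n := by linarith
    exact le_of_mul_le_mul_right this hn0
  have m1 : (J : ℝ) ≤ χ / 16 * J * n := by
    have := mul_le_mul_of_nonneg_right hN1 hJ0.le
    linarith
  have b2' : x₁ * J < a + 1 + χ / 16 * J := by
    have : x₁ * J * n < (a + 1 + χ / 16 * J) * n := by linarith
    exact lt_of_mul_lt_mul_right this hn0.le
  have b4' : (a : ℝ) + X < x₂ * J + χ / 16 * J := by
    have : ((a : ℝ) + X) * n < (x₂ * J + χ / 16 * J) * n := by linarith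
    exact lt_of_mul_lt_mul_right this hn0.le
  have c1 : 3 / 4 * X ≤ (x₂ - x₁) * J := by
    have : (x₂ - x₁) * J = x₂ * J - x₁ * J := by ring
    rw [this]
    linarith
  have c2 : x₁ + χ / 2 ≤ x₂ := by
    have : χ / 2 * J ≤ (x₂ - x₁) * J := by linarith
    have := le_of_mul_le_mul_right this hJ0
    linarith
  have c3 : ya ≤ x₁ := by
    have : ya * J ≤ x₁ * J := by linarith
    exact le_of_mul_le_mul_right this hJ0
  have c4 : x₂ ≤ yb := by
    have : x₂ * J ≤ yb * J := by linarith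
    exact le_of_mul_le_mul_right this hJ0
  have c5 : x₂ ≤ 1 := c4.trans hyb
  have hx20 : 0 ≤ x₂ := by
    rw [hx₂]
    positivity
  have g1 := hA x₁ x₂ c3 c2 c4
  have hij : i ≤ j := by
    have : x₁ * n ≤ x₂ * n := mul_le_mul_of_nonneg_right (by linarith) hn0.le
    rw [e1, e2] at this
    exact_mod_cast this
  have hjn : j ≤ n := by
    have : x₂ * n ≤ 1 * n := mul_le_mul_of_nonneg_right c5 hn0.le
    rw [e2, one_mul] at this
    exact_mod_cast this
  have f1 : (msh J n j : ℝ) ≤ x₂ * J := by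
    unfold msh
    rw [← hx₂]
    exact Nat.floor_le (by positivity)
  have g2 := hQ i j hij hjn (f1.trans (mul_le_mul_of_nonneg_right c4 hJ0.le))
  rw [← hx₁, ← hx₂] at g2
  have d1 : a ≤ msh J n i := by
    unfold msh
    rw [← hx₁]
    refine Nat.le_floor ?_
    linarith
  have d2 : msh J n j ≤ a + X := by
    have : (msh J n j : ℝ) ≤ a + X := f1.trans b3
    exact_mod_cast this
  have g3 := hH a (msh J n i) (a + X) (msh J n j) d1 d2
  have f2 : c * ((x₂ - x₁) * J) ≤ (A x₂ - A x₁) * J := by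
    have := mul_le_mul_of_nonneg_right g1 hJ0.le
    linarith
  have f3 : c * (3 / 4 * X) ≤ c * ((x₂ - x₁) * J) := mul_le_mul_of_nonneg_left c1 hc.le
  have f4 : c * (χ * J) ≤ c * X := mul_le_mul_of_nonneg_left hX hc.le
  have f5 := le_abs_self C
  have f6 : h * J ≤ c * χ / 16 * J := mul_le_mul_of_nonneg_right hh hJ0.le
  have f7 : 0 ≤ c * X := by positivity
  have f8 : (A x₂ - A x₁ - h) * J = (A x₂ - A x₁) * J - h * J := by ring
  rw [f8] at g2
  linarith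

/-- Digits of the direction after the coarse precision of the box. -/
noncomputable def Hb (F : Fam 2 J) (B : ℕ → Bx F) (k : ℕ) (p : F.Ω → ℝ) (a b : ℕ) : ℝ :=
  CH p (vc F (B k).i0 ((B k).q + b)) (fun ω => (ptk B k ω, vc F (B k).i0 ((B k).q + a) ω))

theorem Hb_mono {F : Fam 2 J} {B : ℕ → Bx F} {k : ℕ} {p : F.Ω → ℝ} (hp : ∀ ω, 0 ≤ p ω)
    {a a' b b' : ℕ} (h1 : a ≤ a') (h2 : b' ≤ b) : Hb F B k p a' b' ≤ Hb F B k p a b := by
  unfold Hb
  have k1 : CH p (vc F (B k).i0 ((B k).q + b'))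
      (fun ω => (ptk B k ω, vc F (B k).i0 ((B k).q + a') ω)) ≤
      CH p (vc F (B k).i0 ((B k).q + b))
      (fun ω => (ptk B k ω, vc F (B k).i0 ((B k).q + a') ω)) :=
    CH_mono_left hp fun ω ω' _ _ e => vc_down (by omega) (Prod.ext_iff.mp e).1
  refine k1.trans (CH_mono_cond hp fun ω ω' _ _ e => ?_)
  have e1 := Prod.ext_iff.mp e
  exact Prod.ext e1.1 (vc_down (by omega) e1.2)

theorem Hb_eq {F : Fam 2 J} {B : ℕ → Bx F} {k : ℕ} {p : F.Ω → ℝ} (hp : ∀ ω, 0 ≤ p ω) (a X : ℕ) :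
    Hb F B k p a (a + X) = CH p (vc F (B k).i0 ((B k).q + a + X)) (ptk B k) -
      CH p (vc F (B k).i0 ((B k).q + a)) (ptk B k) := by
  have h1 := CH_of_det hp (N := vc F (B k).i0 ((B k).q + a + X))
    (N' := vc F (B k).i0 ((B k).q + a)) (Z := ptk B k)
    (fun ω ω' _ _ e => vc_down (by omega) (Prod.ext_iff.mp e).1)
  have h2 : CH p (vc F (B k).i0 ((B k).q + a + X))
      (fun ω => (vc F (B k).i0 ((B k).q + a) ω, ptk B k ω)) =
      CH p (vc F (B k).i0 ((B k).q + a + X))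
      (fun ω => (ptk B k ω, vc F (B k).i0 ((B k).q + a) ω)) := by
    refine CH_congr hp (fun _ _ _ _ h => (Prod.ext_iff.mp h).1)
      (fun _ _ _ _ h => (Prod.ext_iff.mp h).1) ?_ ?_ <;>
    · intro ω ω' _ _ h
      have := Prod.ext_iff.mp h
      exact Prod.ext this.2 this.1
  unfold Hb
  rw [← Nat.add_assoc, ← h2]
  linarith

/-- **The activity at all integers of a cell**, on all events. -/
theorem lvl_cell (c χ C : ℝ) (hc : 0 < c) (hχ : 0 < χ) : ∃ n₀ : ℕ, 1 ≤ n₀ ∧ ∀ n : ℕ,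
    n₀ ≤ n → ∃ (h₀ : ℝ) (J₀ : ℕ), 0 < h₀ ∧
      ∀ (J : ℕ) (F : Fam 2 J) (cn : Nm) (h ya yb : ℝ) (B : ℕ → Bx F) (k : ℕ), J₀ ≤ J → h ≤ h₀ →
        0 ≤ ya → yb ≤ 1 → Lvl F cn n h B k →
        (∀ x y, ya ≤ x → x + χ / 2 ≤ y → y ≤ yb → c * (y - x) ≤ cn.act y - cn.act x) →
        ∀ a X : ℕ, χ * J ≤ X → ya * J ≤ a → ((a + X : ℕ) : ℝ) ≤ yb * J → (B k).q + yb * J ≤ J →
        ∀ E : F.Ω → Prop, h ≤ Pe F.p E → c / 2 * X * Real.log 2 + C ≤
          CH (Pool.Agent.H49.Ent.cond F.p E True) (vc F (B k).i0 ((B k).q + a + X)) (ptk B k) -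
            CH (Pool.Agent.H49.Ent.cond F.p E True) (vc F (B k).i0 ((B k).q + a)) (ptk B k) := by
  have hu0 : 0 < Real.log 2 := Real.log_pos (by norm_num)
  obtain ⟨n₀, hn₀, hm⟩ := mesh_growth c χ (C / Real.log 2) hc hχ
  refine ⟨n₀, hn₀, fun n hn => ?_⟩
  obtain ⟨h₀, J₀, hh₀, hm⟩ := hm n hn
  refine ⟨h₀, J₀, hh₀, ?_⟩
  intro J F cn h ya yb B k hJ hh hya hyb hL hA a X hX ha haX hqJ E hE
  have hp : ∀ ω, 0 ≤ Pool.Agent.H49.Ent.cond F.p E True ω := cond_nonneg F.isLaw.nonneg _ _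
  rw [← Hb_eq hp]
  have key := hm J h ya yb (fun a b => Hb F B k (Pool.Agent.H49.Ent.cond F.p E True) a b /
    Real.log 2) cn.act hJ hh hya hyb
    (fun a a' b b' h1 h2 => div_le_div_of_nonneg_right (Hb_mono hp h1 h2) hu0.le)
    (fun i j hij hj hjy => by
      rw [le_div_iff₀ hu0]
      refine hL.ac i j hij hj ?_ E hE
      have : (((B k).q + msh J n j : ℕ) : ℝ) ≤ J := by
        push_cast
        linarith
      exact_mod_cast this) hA a X hX ha haX
  rw [le_div_iff₀ hu0] at key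
  have e : (c / 2 * X + C / Real.log 2) * Real.log 2 = c / 2 * X * Real.log 2 + C := by
    field_simp
  linarith

end Pool.WF
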