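import Pool.Agent.H78.PC.WUe

/-!
# The U-step at one context without the hypothesis on the full rows
-/

set_option autoImplicit false

namespace Pool.WF

open Finset Real
open Pool.Agent.H49.Ent Pool.Agent.H32.Dense Pool.STK Pool.KA Pool.KSAT Pool.K2S Pool.OCG
  Pool.S6U Pool.UEG

/-- The velocity of the first coordinate is active on all events of probability at least `ϖ`. -/
def Ac {m J : ℕ} (F : Fam m J) (p : F.Ω → ℝ) (i₀ : Fin m) (w : ℕ) (c : Fin m → ℕ)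
    (M : F.Ω → Fin m → Fin m → ℝ) (X' : ℕ) (ϖ ca : ℝ) : Prop :=
  ∀ E : F.Ω → Prop, ϖ ≤ Pe p E → ca * X' * Real.log 2 ≤
    CH (Pool.Agent.H49.Ent.cond p E True) (Uni.dg X' (fun ω => F.md c M ω i₀)) (F.blb w c M)

/-- **The U-step at one context**: the velocity of the first coordinate is active; nothing is
supposed on the rows of the first coordinate. -/
theorem ueg_pairW : ∀ ε ca : ℝ, 0 < ε → 0 < ca → ∃ (x₁ ϖ ε₁ εN : ℝ), 0 < x₁ ∧ 0 < ϖ ∧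
    ϖ ≤ 1 ∧ 0 < ε₁ ∧ 0 < εN ∧ ∀ k' : ℕ, ∃ (δ : ℝ) (n d₀ : ℕ), 0 < δ ∧ 1 ≤ n ∧ 1 ≤ d₀ ∧
    ∀ {m J : ℕ} (F : Fam m J) {Γ : Type} (G : F.Ω → Γ) (p : F.Ω → ℝ) (i₀ iu : Fin m) (w : ℕ)
      (c : Fin m → ℕ) (M : F.Ω → Fin m → Fin m → ℝ) (S : F.Ω → ℝ) (d : ℕ), IsLaw p → w ≤ J →
      d₀ ≤ d → Det p (slam F w) M →
      Det p (fun ω => (F.blb w c M ω, (G ω, F.T ω))) S → (∀ ω, 0 < p ω → |S ω| ≤ 4) →
      (∀ E : F.Ω → Prop, ϖ ≤ Pe p E →
        TqG F w S (n * d) k' x₁ ε₁ εN (Pool.Agent.H49.Ent.cond p E True)) →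
      (∀ r X', d ∣ r → d ∣ X' → 0 < X' → r + X' ≤ n * d →
        Ac F p i₀ w (fun i => c i + r) M X' ϖ ca) →
      (∀ r, d ∣ r → r < n * d → DqG F p i₀ iu w (fun i => c i + r) M S G (n * d) δ) →
      (1 - ε) * (n * d : ℕ) * Real.log 2 ≤
        CH p (Uni.dg (n * d) (tnu F w c M i₀ iu S))
          (fun ω => (vd F i₀ iu w c M (n * d) ω, cdn F w c M G ω)) ∧
      (2 - ε) * (n * d : ℕ) * Real.log 2 ≤
        CH p (fun ω => (Uni.dg (n * d) (tnu F w c M i₀ iu S) ω,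
          Uni.dg (n * d) (fun ω => F.mx w c M ω i₀) ω)) (cdn F w c M G) := by
  intro ε ca hε hca
  obtain ⟨x₁, ϖ₁, δ₃, ε₁, εN₁, hx₁, hϖ₁, hϖ₁1, hδ₃, hε₁, hεN₁, hue⟩ := ueg_pair ε ca hε hca
  obtain ⟨κ, ϖ₂, eN₂, hκ, hκ1, hϖ₂, heN₂, hwf⟩ := wf_one δ₃ (ca / 2) hδ₃ (by positivity)
  have hu0 : 0 < Real.log 2 := Real.log_pos (by norm_num)
  have hm0 : 0 < min ϖ₂ 1 := lt_min hϖ₂ one_pos
  have hϖa : ϖ₁ * min ϖ₂ 1 ≤ ϖ₁ := mul_le_of_le_one_right hϖ₁.le (min_le_right _ _)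
  refine ⟨x₁, ϖ₁ * min ϖ₂ 1, ε₁, min εN₁ eN₂, hx₁, by positivity, hϖa.trans hϖ₁1, hε₁,
    lt_min hεN₁ heN₂, ?_⟩
  intro k'
  obtain ⟨δ₁, n₁, d₁, hδ₁, hn₁, hd₁, hue⟩ := hue k'
  obtain ⟨δ₂, X₀, hδ₂, hwf⟩ := hwf k'
  obtain ⟨e, he⟩ := exists_nat_ge (2 / κ)
  obtain ⟨N₁, hN₁⟩ := exists_nat_ge (Real.log 2 / (δ₂ * ϖ₁ / 2))
  refine ⟨min δ₁ (δ₂ * ϖ₁ / 2), n₁ * (e + 1), d₁ + X₀ + N₁, lt_min hδ₁ (by positivity),
    Nat.succ_le_of_lt (Nat.mul_pos (by omega) (by omega)), by omega, ?_⟩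
  intro m J F Γ G p i₀ iu w c M S d hp hw hd hM hS hS4 hT hB hD
  have h0 := hp.nonneg
  have hE : n₁ * (e + 1) * d = n₁ * ((e + 1) * d) := by ring
  rw [hE] at hT hB hD ⊢
  obtain ⟨X, hX⟩ : ∃ X, X = n₁ * ((e + 1) * d) := ⟨_, rfl⟩
  have hXr : (0 : ℝ) ≤ X := Nat.cast_nonneg _
  have hdd : d ≤ (e + 1) * d := Nat.le_mul_of_pos_left d (by omega)
  have hdX : (e + 1) * d ≤ X := by
    rw [hX]
    exact Nat.le_mul_of_pos_left _ (by omega)
  have hdiv : d ∣ (e + 1) * d := Dvd.intro_left _ rfl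
  have hmono : min δ₁ (δ₂ * ϖ₁ / 2) * X ≤ δ₁ * X :=
    mul_le_mul_of_nonneg_right (min_le_left _ _) hXr
  have hmono2 : min δ₁ (δ₂ * ϖ₁ / 2) * X ≤ δ₂ * ϖ₁ / 2 * X :=
    mul_le_mul_of_nonneg_right (min_le_right _ _) hXr
  have hbig : Real.log 2 ≤ δ₂ * ϖ₁ / 2 * X := by
    have h1 : (N₁ : ℝ) ≤ X := by exact_mod_cast (show N₁ ≤ X by omega)
    have h2 := hN₁.trans h1
    rw [div_le_iff₀ (by positivity)] at h2
    linarith
  have hκX : 2 * (d : ℝ) ≤ κ * X := by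
    have h1 : (2 : ℝ) ≤ κ * e := by
      rw [div_le_iff₀ hκ] at he
      linarith
    have h2 : ((e + 1) * d : ℕ) ≤ (X : ℝ) := by exact_mod_cast hdX
    push_cast at h2
    have hdr : (0 : ℝ) ≤ d := Nat.cast_nonneg _
    have h3 : κ * (((e : ℝ) + 1) * d) ≤ κ * X := mul_le_mul_of_nonneg_left h2 hκ.le
    have h4 : 2 * (d : ℝ) ≤ κ * e * d := mul_le_mul_of_nonneg_right h1 hdr
    have h5 : 0 ≤ κ * d := by positivity
    linarith
  refine hue F G p i₀ iu w c M S ((e + 1) * d) hp (by omega) hM hS hS4 ?_ ?_ ?_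
  · intro E hPE
    have h1 := hT E (hϖa.trans hPE)
    rw [← hX] at h1 ⊢
    exact ⟨h1.nr.trans (mul_le_mul_of_nonneg_right (min_le_left _ _) hXr), h1.h6⟩
  · intro r X' hr hX' hX'0 hrX E hPE
    rw [← hX] at hT hB hD hrX ⊢
    have hq : IsLaw (Pool.Agent.H49.Ent.cond p E True) := ev_law hp hϖ₁ hPE
    have hr' : d ∣ r := hdiv.trans hr
    have t3 := hD r hr' (by omega)
    refine ⟨?_, hB r X' hr' (hdiv.trans hX') hX'0 hrX E (hϖa.trans hPE)⟩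
    have ev : ∀ {A B C : Type} (N : F.Ω → A) (V : F.Ω → B) (b : F.Ω → C),
        dp p N V b ≤ min δ₁ (δ₂ * ϖ₁ / 2) * X →
          dp (Pool.Agent.H49.Ent.cond p E True) N V b ≤ δ₂ * X := by
      intro A B C N V b h
      refine (dp_event' hp hϖ₁ hPE N V b).trans ?_
      rw [div_le_iff₀ hϖ₁]
      have : δ₂ * ϖ₁ / 2 * X + δ₂ * ϖ₁ / 2 * X = δ₂ * X * ϖ₁ := by ring
      linarith
    refine hwf F G _ i₀ w (fun i => c i + r) M X X' hq hw (by omega) (by omega)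
      (det_ev h0 hM) (ev _ _ _ t3.t) (ev _ _ _ t3.b) (ev _ _ _ t3.m) ?_ ?_
    · exact (hT E (hϖa.trans hPE)).nr.trans (mul_le_mul_of_nonneg_right (min_le_right _ _) hXr)
    · intro E' hPE' h hh1 hh2
      have hPA : Pe p E ≠ 0 := (hϖ₁.trans_le hPE).ne'
      rw [Piece.cond_inter hPA]
      have hP2 : ϖ₁ * min ϖ₂ 1 ≤ Pe p (fun ω => E ω ∧ E' ω) := by
        have e1 : Pe (Pool.Agent.H49.Ent.cond p E True) E' =
          Pe p (fun ω => E ω ∧ E' ω) / Pe p E := Pe_cond E'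
        rw [e1, le_div_iff₀ (hϖ₁.trans_le hPE)] at hPE'
        refine le_trans ?_ hPE'
        rw [mul_comm ϖ₁]
        exact mul_le_mul (min_le_left _ _) hPE hϖ₁.le hϖ₂.le
      obtain ⟨h', hh'⟩ : ∃ h', h' = d * (h / d) := ⟨_, rfl⟩
      have k1 : h' ≤ h := by rw [hh']; exact Nat.mul_div_le _ _
      have k2 : h < h' + d := by
        rw [hh']
        have := Nat.lt_mul_div_succ h (show 0 < d by omega)
        rw [Nat.mul_succ] at this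
        exact this
      have k3 : (h : ℝ) < h' + d := by exact_mod_cast k2
      have k4 : (d : ℝ) ≤ h' := by linarith
      have k5 : d ≤ h' := by exact_mod_cast k4
      have key := hB r h' hr' (by rw [hh']; exact Dvd.intro _ rfl) (by omega) (by omega)
        (fun ω => E ω ∧ E' ω) hP2
      have k6 : ca / 2 * h * Real.log 2 ≤ ca * h' * Real.log 2 := by
        refine mul_le_mul_of_nonneg_right ?_ hu0.le
        have : (h : ℝ) ≤ 2 * h' := by linarith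
        have := mul_le_mul_of_nonneg_left this hca.le
        linarith
      refine k6.trans (key.trans ?_)
      exact CH_mono_left (cond_nonneg h0 _ _) fun ω ω' _ _ e => dg_mono k1 (Prod.ext_iff.mp e).1
  · intro r hr hrX
    rw [← hX] at hD hrX ⊢
    have h5 := hD r (hdiv.trans hr) hrX
    exact ⟨h5.t.trans hmono, h5.a.trans hmono, h5.b.trans hmono, h5.m.trans hmono⟩

end Pool.WF
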